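import Mathlib

set_option autoImplicit false
set_option linter.unusedVariables false
set_option linter.unusedSectionVars false
set_option linter.unusedSimpArgs false

namespace Pool.Agent.Helper340.Crit11

open Finset

/-- weight of a set `s` (with reduced part `a`) when the points of `X` are settled correctly and
the points of `Y` are settled wrongly. -/
noncomputable def wt {E : Type*} [DecidableEq E] (X Y s a : Finset E) : ℝ :=
  if Disjoint s Y then (1 / 2 : ℝ) ^ ((a \ X).card) else 0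

/-- weight times one plus the number of open points -/
noncomputable def ut {E : Type*} [DecidableEq E] (X Y s a : Finset E) : ℝ :=
  wt X Y s a * (1 + ((a \ X).card : ℝ))

section basic
variable {E : Type*} [DecidableEq E]

lemma wt_nonneg (X Y s a : Finset E) : 0 ≤ wt X Y s a := by
  unfold wt; split_ifs <;> positivity

lemma ut_nonneg (X Y s a : Finset E) : 0 ≤ ut X Y s a := by
  unfold ut
  have := wt_nonneg X Y s a
  positivity

lemma wt_le_ut (X Y s a : Finset E) : wt X Y s a ≤ ut X Y s a := by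
  unfold ut
  have h := wt_nonneg X Y s a
  have h2 : (0 : ℝ) ≤ ((a \ X).card : ℝ) := Nat.cast_nonneg _
  nlinarith

lemma card_in {X a : Finset E} {x : E} (hxX : x ∉ X) (hx : x ∈ a) :
    (a \ X).card = (a \ insert x X).card + 1 := by
  have h1 : a \ insert x X = (a \ X).erase x := by
    ext z; simp only [mem_sdiff, mem_insert, mem_erase, not_or]; tauto
  have hmem : x ∈ a \ X := by simp [hx, hxX]
  rw [h1, card_erase_of_mem hmem]
  have : 0 < (a \ X).card := card_pos.mpr ⟨x, hmem⟩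
  omega

lemma key_in {X a : Finset E} {x : E} (hxX : x ∉ X) (hx : x ∈ a) :
    (1 / 2 : ℝ) ^ ((a \ insert x X).card) = 2 * (1 / 2 : ℝ) ^ ((a \ X).card) := by
  rw [card_in hxX hx, pow_succ]; ring

lemma set_notin {X a : Finset E} {x : E} (hx : x ∉ a) : a \ insert x X = a \ X := by
  ext z; simp only [mem_sdiff, mem_insert, not_or]
  constructor
  · rintro ⟨a, b, c⟩; exact ⟨a, c⟩
  · rintro ⟨a, b⟩; refine ⟨a, ?_, b⟩; rintro rfl; exact hx a

lemma wt_new {X Y s a : Finset E} {x y : E} (hxX : x ∉ X) :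
    wt (insert x X) (insert y Y) s a =
      if y ∈ s then 0 else (if x ∈ a then 2 * wt X Y s a else wt X Y s a) := by
  have hdis : Disjoint s (insert y Y) ↔ y ∉ s ∧ Disjoint s Y := by
    rw [disjoint_insert_right]
  unfold wt
  rw [if_congr hdis rfl rfl]
  by_cases h1 : y ∈ s
  · simp [h1]
  by_cases hD : Disjoint s Y
  · simp only [h1, hD, not_false_eq_true, and_self, if_true, if_false]
    split_ifs with hx
    · exact key_in hxX hx
    · rw [set_notin hx]
  · simp [h1, hD]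

lemma wt_Y {X Y s a : Finset E} {y : E} :
    wt X (insert y Y) s a = if y ∈ s then 0 else wt X Y s a := by
  have hdis : Disjoint s (insert y Y) ↔ y ∉ s ∧ Disjoint s Y := by
    rw [disjoint_insert_right]
  unfold wt
  rw [if_congr hdis rfl rfl]
  by_cases h1 : y ∈ s <;> simp [h1]

lemma wt_lower {X Y s : Finset E} {x y : E} (hxX : x ∉ X) :
    wt X Y s s + (if x ∈ s then wt X Y s s else 0) - (if y ∈ s then wt X Y s s else 0)
      - (if x ∈ s ∧ y ∈ s then wt X Y s s else 0)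
      ≤ wt (insert x X) (insert y Y) s s := by
  rw [wt_new hxX]
  have h := wt_nonneg X Y s s
  by_cases hx : x ∈ s <;> by_cases h1 : y ∈ s <;>
    simp only [hx, h1, if_true, if_false, and_self, and_true, and_false] <;> linarith

lemma wt_lower' {X Y s : Finset E} {x y : E} (hxX : x ∉ X) :
    wt X Y s s - (if y ∈ s then wt X Y s s else 0)
      ≤ wt (insert x X) (insert y Y) s s := by
  rw [wt_new hxX]
  have h := wt_nonneg X Y s s
  by_cases hx : x ∈ s <;> by_cases h1 : y ∈ s <;>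
    simp only [hx, h1, if_true, if_false] <;> linarith

lemma wt_upper' {X Y s : Finset E} {x y : E} (hxX : x ∉ X) :
    wt (insert x X) (insert y Y) s s
      ≤ wt X Y s s + (if x ∈ s then wt X Y s s else 0) := by
  rw [wt_new hxX]
  have h := wt_nonneg X Y s s
  by_cases hx : x ∈ s <;> by_cases h1 : y ∈ s <;>
    simp only [hx, h1, if_true, if_false] <;> linarith

lemma ut_upper {X Y s a : Finset E} (has : a ⊆ s) {x y : E} (hxX : x ∉ X) :
    ut (insert x X) (insert y Y) s a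
      ≤ ut X Y s a
        + (if x ∈ a then wt X Y s a * (((a \ X).card : ℝ) - 1) else 0)
        - (if y ∈ a then wt X Y s a * (((a \ X).card : ℝ) + 1) else 0) := by
  have h := wt_nonneg X Y s a
  have hf : (0 : ℝ) ≤ ((a \ X).card : ℝ) := Nat.cast_nonneg _
  have hu := ut_nonneg X Y s a
  unfold ut at *
  rw [wt_new hxX]
  by_cases h1 : y ∈ s
  · rw [if_pos h1, zero_mul]
    have h2 : (if y ∈ a then wt X Y s a * (((a \ X).card : ℝ) + 1) else 0)
        ≤ wt X Y s a * (1 + ((a \ X).card : ℝ)) := by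
      split_ifs
      · linarith
      · exact hu
    have h3 : 0 ≤ (if x ∈ a then wt X Y s a * (((a \ X).card : ℝ) - 1) else 0) := by
      split_ifs with hx
      · apply mul_nonneg h
        rw [card_in hxX hx]
        push_cast
        have : (0 : ℝ) ≤ ((a \ insert x X).card : ℝ) := Nat.cast_nonneg _
        linarith
      · exact le_refl _
    linarith
  · have h2 : y ∉ a := fun hy => h1 (has hy)
    rw [if_neg h1, if_neg h2]
    by_cases hx : x ∈ a
    · rw [if_pos hx, if_pos hx]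
      have h4 : ((a \ X).card : ℝ) = ((a \ insert x X).card : ℝ) + 1 := by
        exact_mod_cast card_in hxX hx
      rw [h4]
      apply le_of_eq
      ring
    · rw [if_neg hx, if_neg hx, set_notin hx]
      linarith

lemma wt_mono {X Y s a b : Finset E} (hab : b ⊆ a) : wt X Y s a ≤ wt X Y s b := by
  unfold wt
  split_ifs with h
  · apply pow_le_pow_of_le_one (by norm_num) (by norm_num)
    exact card_le_card (sdiff_subset_sdiff hab (le_refl _))
  · exact le_refl _

end basic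

/-- A family of target sets `A φ` with a system of levels. -/
structure Sys (E Φ L : Type*) [DecidableEq E] [DecidableEq Φ] where
  A : Φ → Finset E
  mem : L → Finset Φ
  red : L → Φ → Finset E
  K : Finset L
  base : L
  cap : L → ℝ
  e1 : ℝ
  eb : ℝ
  e2 : ℝ
  lam : ℝ
  Q : ℝ
  red_sub : ∀ κ φ, red κ φ ⊆ A φ
  red_base : ∀ φ, red base φ = A φ
  red_card : ∀ κ φ, ((red κ φ).card : ℝ) ≤ Q
  cap_pos : ∀ κ, 0 < cap κ
  K_ne : K.Nonempty
  one : ∀ κ ∈ K, ∀ φ₀ ∈ mem κ, ∀ u ∈ red κ φ₀, ∃ κ' ∈ K, cap κ' ≤ e1 * cap κ ∧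
    ∀ φ ∈ mem κ, u ∈ red κ φ → φ ∈ mem κ' ∧ red κ' φ ⊆ red κ φ
  bone : ∀ φ₀ ∈ mem base, ∀ u ∈ red base φ₀, ∃ κ' ∈ K, cap κ' ≤ eb * cap base ∧
    ∀ φ ∈ mem base, u ∈ red base φ → φ ∈ mem κ' ∧ red κ' φ ⊆ red base φ
  btwo : ∀ φ₀ ∈ mem base, ∀ u ∈ red base φ₀, ∀ v ∈ red base φ₀, u ≠ v →
    ∃ κ' ∈ K, cap κ' ≤ e2 * cap base ∧
    ∀ φ ∈ mem base, u ∈ red base φ → v ∈ red base φ → φ ∈ mem κ' ∧ red κ' φ ⊆ red base φ
  lam_ge : 1 ≤ lam
  Q_ge : 1 ≤ Q
  e1_nonneg : 0 ≤ e1
  eb_nonneg : 0 ≤ eb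
  e2_nonneg : 0 ≤ e2
  eb_le : eb ≤ 1 / 16
  lam_e1 : 4 * lam * (Q + 1) ^ 2 * e1 ≤ 1
  K_le : 3 * (K.card : ℝ) ≤ Real.exp lam

namespace Sys

variable {E Φ L : Type*} [DecidableEq E] [DecidableEq Φ] (S : Sys E Φ L)

noncomputable def val (X Y : Finset E) (κ : L) : ℝ :=
  ∑ φ ∈ S.mem κ, wt X Y (S.A φ) (S.red κ φ)

noncomputable def vat (X Y : Finset E) (κ : L) : ℝ :=
  ∑ φ ∈ S.mem κ, ut X Y (S.A φ) (S.red κ φ)

noncomputable def val1 (X Y : Finset E) (κ : L) (u : E) : ℝ :=
  ∑ φ ∈ S.mem κ, if u ∈ S.red κ φ then wt X Y (S.A φ) (S.red κ φ) else 0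

noncomputable def bal1 (X Y : Finset E) (κ : L) (u : E) : ℝ :=
  ∑ φ ∈ S.mem κ, if u ∈ S.red κ φ then
    wt X Y (S.A φ) (S.red κ φ) * ((S.red κ φ \ X).card : ℝ) else 0

noncomputable def val2 (X Y : Finset E) (κ : L) (u v : E) : ℝ :=
  ∑ φ ∈ S.mem κ, if u ∈ S.red κ φ ∧ v ∈ S.red κ φ then wt X Y (S.A φ) (S.red κ φ) else 0

lemma val_nonneg (X Y : Finset E) (κ : L) : 0 ≤ S.val X Y κ :=
  Finset.sum_nonneg (fun _ _ => wt_nonneg _ _ _ _)

lemma vat_nonneg (X Y : Finset E) (κ : L) : 0 ≤ S.vat X Y κ :=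
  Finset.sum_nonneg (fun _ _ => ut_nonneg _ _ _ _)

lemma val_le_vat (X Y : Finset E) (κ : L) : S.val X Y κ ≤ S.vat X Y κ :=
  Finset.sum_le_sum (fun _ _ => wt_le_ut _ _ _ _)

lemma val1_nonneg (X Y : Finset E) (κ : L) (u : E) : 0 ≤ S.val1 X Y κ u := by
  unfold val1
  apply Finset.sum_nonneg; intro i _; split_ifs
  · exact wt_nonneg _ _ _ _
  · exact le_refl _

lemma bal1_nonneg (X Y : Finset E) (κ : L) (u : E) : 0 ≤ S.bal1 X Y κ u := by
  unfold bal1
  apply Finset.sum_nonneg; intro i _; split_ifs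
  · exact mul_nonneg (wt_nonneg _ _ _ _) (Nat.cast_nonneg _)
  · exact le_refl _

lemma bal1_le (X Y : Finset E) (κ : L) (u : E) : S.bal1 X Y κ u ≤ S.Q * S.val1 X Y κ u := by
  unfold bal1 val1
  rw [Finset.mul_sum]
  apply Finset.sum_le_sum; intro φ _; split_ifs
  · have h := wt_nonneg X Y (S.A φ) (S.red κ φ)
    have h2 : ((S.red κ φ \ X).card : ℝ) ≤ S.Q := by
      refine le_trans ?_ (S.red_card κ φ)
      exact_mod_cast card_le_card sdiff_subset
    rw [mul_comm]
    exact mul_le_mul_of_nonneg_right h2 h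
  · simp

lemma val2_nonneg (X Y : Finset E) (κ : L) (u v : E) : 0 ≤ S.val2 X Y κ u v := by
  unfold val2
  apply Finset.sum_nonneg; intro i _; split_ifs
  · exact wt_nonneg _ _ _ _
  · exact le_refl _

lemma val2_le_val1 (X Y : Finset E) (κ : L) (u v : E) : S.val2 X Y κ u v ≤ S.val1 X Y κ u := by
  unfold val2 val1
  apply Finset.sum_le_sum; intro φ _
  have := wt_nonneg X Y (S.A φ) (S.red κ φ)
  by_cases h : u ∈ S.red κ φ
  · by_cases h' : v ∈ S.red κ φ <;> simp [h, h', this]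
  · simp [h]

/-- normalised values -/
noncomputable def z (X Y : Finset E) (κ : L) : ℝ := S.vat X Y κ / S.cap κ

lemma z_nonneg (X Y : Finset E) (κ : L) : 0 ≤ S.z X Y κ :=
  div_nonneg (S.vat_nonneg X Y κ) (S.cap_pos κ).le

/-- the exponential potential -/
noncomputable def Psi (X Y : Finset E) : ℝ :=
  (∑ κ ∈ S.K, Real.exp (S.lam * S.z X Y κ)) / (S.K.card : ℝ)

lemma K_card_pos : (0 : ℝ) < (S.K.card : ℝ) := by
  exact_mod_cast S.K_ne.card_pos

lemma Psi_ge_one (X Y : Finset E) : 1 ≤ S.Psi X Y := by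
  unfold Psi
  rw [le_div_iff₀ S.K_card_pos, one_mul]
  calc (S.K.card : ℝ) = ∑ κ ∈ S.K, (1 : ℝ) := by simp
    _ ≤ ∑ κ ∈ S.K, Real.exp (S.lam * S.z X Y κ) := by
      apply Finset.sum_le_sum
      intro κ _
      rw [← Real.exp_zero]
      apply Real.exp_le_exp.mpr
      exact mul_nonneg (by linarith [S.lam_ge]) (S.z_nonneg X Y κ)

/-- all levels are below their caps -/
def Caps (X Y : Finset E) : Prop := ∀ κ ∈ S.K, S.vat X Y κ ≤ S.cap κ

lemma caps_of_Psi {X Y : Finset E} (h : S.Psi X Y ≤ 3) : S.Caps X Y := by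
  intro κ hκ
  unfold Psi at h
  rw [div_le_iff₀ S.K_card_pos] at h
  have h1 : Real.exp (S.lam * S.z X Y κ) ≤ ∑ κ ∈ S.K, Real.exp (S.lam * S.z X Y κ) :=
    Finset.single_le_sum (f := fun κ => Real.exp (S.lam * S.z X Y κ))
      (fun i _ => (Real.exp_pos _).le) hκ
  have h2 : Real.exp (S.lam * S.z X Y κ) ≤ Real.exp S.lam := h1.trans (h.trans S.K_le)
  have h3 := Real.exp_le_exp.mp h2
  have h4 : S.z X Y κ ≤ 1 := by
    have := S.lam_ge
    nlinarith
  unfold z at h4
  rwa [div_le_one (S.cap_pos κ)] at h4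

/-- generic domination bound -/
lemma sum_dom {X Y : Finset E} (κ κ' : L) (P : Φ → Prop) [DecidablePred P]
    (hdom : ∀ φ ∈ S.mem κ, P φ → φ ∈ S.mem κ' ∧ S.red κ' φ ⊆ S.red κ φ) :
    (∑ φ ∈ S.mem κ, if P φ then wt X Y (S.A φ) (S.red κ φ) else 0) ≤ S.val X Y κ' := by
  unfold val
  rw [← Finset.sum_filter]
  have hsub : (S.mem κ).filter P ⊆ S.mem κ' := by
    intro φ hφ
    rw [Finset.mem_filter] at hφ
    exact (hdom φ hφ.1 hφ.2).1
  calc ∑ φ ∈ (S.mem κ).filter P, wt X Y (S.A φ) (S.red κ φ)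
      ≤ ∑ φ ∈ (S.mem κ).filter P, wt X Y (S.A φ) (S.red κ' φ) := by
        apply Finset.sum_le_sum
        intro φ hφ
        rw [Finset.mem_filter] at hφ
        exact wt_mono (hdom φ hφ.1 hφ.2).2
    _ ≤ _ := Finset.sum_le_sum_of_subset_of_nonneg hsub (fun _ _ _ => wt_nonneg _ _ _ _)

lemma val1_le {X Y : Finset E} (hc : S.Caps X Y) {κ : L} (hκ : κ ∈ S.K) (u : E) :
    S.val1 X Y κ u ≤ S.e1 * S.cap κ := by
  by_cases h : ∃ φ₀ ∈ S.mem κ, u ∈ S.red κ φ₀
  · obtain ⟨φ₀, h0, h1⟩ := h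
    obtain ⟨κ', hK, hcap, hdom⟩ := S.one κ hκ φ₀ h0 u h1
    refine le_trans ?_ (((S.val_le_vat X Y κ').trans (hc κ' hK)).trans hcap)
    exact S.sum_dom κ κ' (fun φ => u ∈ S.red κ φ) hdom
  · push Not at h
    have : S.val1 X Y κ u = 0 := by
      unfold val1
      apply Finset.sum_eq_zero
      intro φ hφ
      rw [if_neg (h φ hφ)]
    rw [this]
    exact mul_nonneg S.e1_nonneg (S.cap_pos κ).le

lemma val1_base_le {X Y : Finset E} (hc : S.Caps X Y) (u : E) :
    S.val1 X Y S.base u ≤ S.eb * S.cap S.base := by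
  by_cases h : ∃ φ₀ ∈ S.mem S.base, u ∈ S.red S.base φ₀
  · obtain ⟨φ₀, h0, h1⟩ := h
    obtain ⟨κ', hK, hcap, hdom⟩ := S.bone φ₀ h0 u h1
    refine le_trans ?_ (((S.val_le_vat X Y κ').trans (hc κ' hK)).trans hcap)
    exact S.sum_dom S.base κ' (fun φ => u ∈ S.red S.base φ) hdom
  · push Not at h
    have : S.val1 X Y S.base u = 0 := by
      unfold val1
      apply Finset.sum_eq_zero
      intro φ hφ
      rw [if_neg (h φ hφ)]
    rw [this]
    exact mul_nonneg S.eb_nonneg (S.cap_pos _).le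

lemma val2_base_le {X Y : Finset E} (hc : S.Caps X Y) {u v : E} (huv : u ≠ v) :
    S.val2 X Y S.base u v ≤ S.e2 * S.cap S.base := by
  by_cases h : ∃ φ₀ ∈ S.mem S.base, u ∈ S.red S.base φ₀ ∧ v ∈ S.red S.base φ₀
  · obtain ⟨φ₀, h0, h1, h1'⟩ := h
    obtain ⟨κ', hK, hcap, hdom⟩ := S.btwo φ₀ h0 u h1 v h1' huv
    refine le_trans ?_ (((S.val_le_vat X Y κ').trans (hc κ' hK)).trans hcap)
    exact S.sum_dom S.base κ' (fun φ => u ∈ S.red S.base φ ∧ v ∈ S.red S.base φ)
      (fun φ hφ h => hdom φ hφ h.1 h.2)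
  · push Not at h
    have : S.val2 X Y S.base u v = 0 := by
      unfold val2
      apply Finset.sum_eq_zero
      intro φ hφ
      rw [if_neg]
      rintro ⟨h1, h2⟩
      exact h φ hφ h1 h2
    rw [this]
    exact mul_nonneg S.e2_nonneg (S.cap_pos _).le

section round
variable {X Y : Finset E} {x y : E}

lemma val_base_lower (hxX : x ∉ X) :
    S.val X Y S.base + S.val1 X Y S.base x - S.val1 X Y S.base y - S.val2 X Y S.base x y
      ≤ S.val (insert x X) (insert y Y) S.base := by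
  unfold val val1 val2
  rw [← Finset.sum_add_distrib, ← Finset.sum_sub_distrib, ← Finset.sum_sub_distrib]
  apply Finset.sum_le_sum
  intro φ _
  rw [S.red_base φ]
  exact wt_lower hxX

lemma val_base_lower' (hxX : x ∉ X) :
    S.val X Y S.base - S.val1 X Y S.base y
      ≤ S.val (insert x X) (insert y Y) S.base := by
  unfold val val1
  rw [← Finset.sum_sub_distrib]
  apply Finset.sum_le_sum
  intro φ _
  rw [S.red_base φ]
  exact wt_lower' hxX

lemma val_base_upper' (hxX : x ∉ X) :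
    S.val (insert x X) (insert y Y) S.base
      ≤ S.val X Y S.base + S.val1 X Y S.base x := by
  unfold val val1
  rw [← Finset.sum_add_distrib]
  apply Finset.sum_le_sum
  intro φ _
  rw [S.red_base φ]
  exact wt_upper' hxX

lemma val_base_Y :
    S.val X Y S.base - S.val1 X Y S.base y ≤ S.val X (insert y Y) S.base := by
  unfold val val1
  rw [← Finset.sum_sub_distrib]
  apply Finset.sum_le_sum
  intro φ _
  rw [S.red_base φ, wt_Y]
  have := wt_nonneg X Y (S.A φ) (S.A φ)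
  split_ifs <;> linarith

lemma vat_upper (κ : L) (hxX : x ∉ X) :
    S.vat (insert x X) (insert y Y) κ
      ≤ S.vat X Y κ + (S.bal1 X Y κ x - S.val1 X Y κ x) - (S.bal1 X Y κ y + S.val1 X Y κ y) := by
  unfold vat bal1 val1
  rw [← Finset.sum_sub_distrib, ← Finset.sum_add_distrib, ← Finset.sum_add_distrib,
    ← Finset.sum_sub_distrib]
  apply Finset.sum_le_sum
  intro φ _
  refine (ut_upper (S.red_sub κ φ) hxX).trans (le_of_eq ?_)
  by_cases hx : x ∈ S.red κ φ <;> by_cases hy : y ∈ S.red κ φ <;>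
    simp only [hx, hy, if_true, if_false] <;> ring

/-- linearised danger of a point -/
noncomputable def D (X Y : Finset E) (u : E) : ℝ :=
  (∑ κ ∈ S.K, Real.exp (S.lam * S.z X Y κ) * (S.lam * (S.bal1 X Y κ u / S.cap κ)))
    / (S.K.card : ℝ)

/-- linearised value of a point -/
noncomputable def j (X Y : Finset E) (u : E) : ℝ :=
  S.cap S.base / (S.val X Y S.base) ^ 2 * S.val1 X Y S.base u - S.D X Y u

/-- potential -/
noncomputable def J (X Y : Finset E) : ℝ :=
  - (S.cap S.base / S.val X Y S.base) - S.Psi X Y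

noncomputable def err : ℝ := 4 * S.e2 + 16 * S.eb ^ 2

lemma err_nonneg : 0 ≤ S.err := by
  unfold err
  have h2 := S.e2_nonneg
  positivity

lemma Psi_round (hxX : x ∉ X) (hc : S.Caps X Y) :
    S.Psi (insert x X) (insert y Y) ≤ S.Psi X Y + S.D X Y x - S.D X Y y := by
  have hl := S.lam_ge
  have hQ := S.Q_ge
  have he1 := S.e1_nonneg
  have hle := S.lam_e1
  have hpt : ∀ κ ∈ S.K, Real.exp (S.lam * S.z (insert x X) (insert y Y) κ) ≤
      Real.exp (S.lam * S.z X Y κ)
      + Real.exp (S.lam * S.z X Y κ) * (S.lam * (S.bal1 X Y κ x / S.cap κ))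
      - Real.exp (S.lam * S.z X Y κ) * (S.lam * (S.bal1 X Y κ y / S.cap κ)) := by
    intro κ hκ
    have hcap := S.cap_pos κ
    set bx := S.bal1 X Y κ x / S.cap κ with hbx
    set by' := S.bal1 X Y κ y / S.cap κ with hby
    set wx := S.val1 X Y κ x / S.cap κ with hwx
    set wy := S.val1 X Y κ y / S.cap κ with hwy
    have hbx0 : 0 ≤ bx := div_nonneg (S.bal1_nonneg _ _ _ _) hcap.le
    have hby0 : 0 ≤ by' := div_nonneg (S.bal1_nonneg _ _ _ _) hcap.le
    have hwx0 : 0 ≤ wx := div_nonneg (S.val1_nonneg _ _ _ _) hcap.le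
    have hwy0 : 0 ≤ wy := div_nonneg (S.val1_nonneg _ _ _ _) hcap.le
    have hwx1 : wx ≤ S.e1 := by rw [hwx, div_le_iff₀ hcap]; exact S.val1_le hc hκ x
    have hwy1 : wy ≤ S.e1 := by rw [hwy, div_le_iff₀ hcap]; exact S.val1_le hc hκ y
    have hbx1 : bx ≤ S.Q * wx := by
      rw [hbx, hwx, ← mul_div_assoc]
      exact div_le_div_of_nonneg_right (S.bal1_le _ _ _ _) hcap.le
    have hby1 : by' ≤ S.Q * wy := by
      rw [hby, hwy, ← mul_div_assoc]
      exact div_le_div_of_nonneg_right (S.bal1_le _ _ _ _) hcap.le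
    set t := (bx - wx) - (by' + wy) with ht
    have hz : S.z (insert x X) (insert y Y) κ ≤ S.z X Y κ + t := by
      unfold z
      rw [div_le_iff₀ hcap]
      have := S.vat_upper (X := X) (Y := Y) (x := x) (y := y) κ hxX
      have e1 : (S.vat X Y κ / S.cap κ + t) * S.cap κ
          = S.vat X Y κ + (S.bal1 X Y κ x - S.val1 X Y κ x)
            - (S.bal1 X Y κ y + S.val1 X Y κ y) := by
        rw [ht, hbx, hby, hwx, hwy]; field_simp; ring
      rw [e1]; exact this
    set w := wx + wy with hw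
    have hw0 : 0 ≤ w := by positivity
    have hw2 : w ≤ 2 * S.e1 := by linarith
    have ht1 : t ≤ (S.Q + 1) * w := by
      have : (S.Q + 1) * w = S.Q * wx + S.Q * wy + wx + wy := by rw [hw]; ring
      have h3 : 0 ≤ S.Q * wy := by positivity
      rw [this]; linarith
    have ht2 : -((S.Q + 1) * w) ≤ t := by
      have : (S.Q + 1) * w = S.Q * wx + S.Q * wy + wx + wy := by rw [hw]; ring
      have h3 : 0 ≤ S.Q * wx := by positivity
      rw [this]; linarith
    have hQw : S.lam * ((S.Q + 1) * w) ≤ 1 := by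
      have h3 : (S.Q + 1) * w ≤ (S.Q + 1) ^ 2 * (2 * S.e1) := by
        have : (S.Q + 1) * w ≤ (S.Q + 1) * (2 * S.e1) :=
          mul_le_mul_of_nonneg_left hw2 (by linarith)
        have h4 : (S.Q + 1) * (2 * S.e1) ≤ (S.Q + 1) ^ 2 * (2 * S.e1) := by
          apply mul_le_mul_of_nonneg_right _ (by linarith)
          nlinarith
        linarith
      have h5 : S.lam * ((S.Q + 1) * w) ≤ S.lam * ((S.Q + 1) ^ 2 * (2 * S.e1)) :=
        mul_le_mul_of_nonneg_left h3 (by linarith)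
      nlinarith
    have hlt : |S.lam * t| ≤ 1 := by
      rw [abs_le]
      constructor
      · have := mul_le_mul_of_nonneg_left ht2 (show (0 : ℝ) ≤ S.lam by linarith)
        linarith
      · have := mul_le_mul_of_nonneg_left ht1 (show (0 : ℝ) ≤ S.lam by linarith)
        linarith
    have hexp : Real.exp (S.lam * t) ≤ 1 + S.lam * t + (S.lam * t) ^ 2 := by
      have h := Real.abs_exp_sub_one_sub_id_le hlt
      rw [abs_le] at h
      linarith [h.2]
    have ht3 : t ^ 2 ≤ ((S.Q + 1) * w) ^ 2 := sq_le_sq' ht2 ht1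
    have h1 : Real.exp (S.lam * S.z (insert x X) (insert y Y) κ)
        ≤ Real.exp (S.lam * S.z X Y κ) * Real.exp (S.lam * t) := by
      rw [← Real.exp_add]
      apply Real.exp_le_exp.mpr
      have := mul_le_mul_of_nonneg_left hz (show (0 : ℝ) ≤ S.lam by linarith)
      linarith
    have h2 : Real.exp (S.lam * t) ≤ 1 + S.lam * bx - S.lam * by' := by
      refine hexp.trans ?_
      have h3 : (S.lam * t) ^ 2 ≤ S.lam * w := by
        have h4 : (S.lam * t) ^ 2 ≤ S.lam ^ 2 * ((S.Q + 1) * w) ^ 2 := by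
          rw [mul_pow]
          exact mul_le_mul_of_nonneg_left ht3 (by positivity)
        have h5 : S.lam ^ 2 * ((S.Q + 1) * w) ^ 2
            = (S.lam * (S.Q + 1) ^ 2 * w) * (S.lam * w) := by ring
        have h6 : S.lam * (S.Q + 1) ^ 2 * w ≤ 1 := by
          have : S.lam * (S.Q + 1) ^ 2 * w ≤ S.lam * (S.Q + 1) ^ 2 * (2 * S.e1) :=
            mul_le_mul_of_nonneg_left hw2 (by positivity)
          have h7 : S.lam * (S.Q + 1) ^ 2 * (2 * S.e1) ≤ 4 * S.lam * (S.Q + 1) ^ 2 * S.e1 := by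
            have : 0 ≤ S.lam * (S.Q + 1) ^ 2 * S.e1 := by positivity
            linarith
          linarith
        have h7 : 0 ≤ S.lam * w := by positivity
        rw [h5] at h4
        nlinarith
      have h4 : S.lam * t = S.lam * bx - S.lam * by' - S.lam * w := by
        rw [ht, hw]; ring
      linarith
    have h5 := mul_le_mul_of_nonneg_left h2 (Real.exp_pos (S.lam * S.z X Y κ)).le
    refine h1.trans (h5.trans (le_of_eq ?_))
    ring
  have hsum := Finset.sum_le_sum hpt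
  have hKp := S.K_card_pos
  unfold Psi D
  rw [← add_div, ← sub_div]
  apply div_le_div_of_nonneg_right _ hKp.le
  refine hsum.trans (le_of_eq ?_)
  rw [Finset.sum_sub_distrib, Finset.sum_add_distrib]

lemma base_round (hxX : x ∉ X) (h1 : x ≠ y) (hc : S.Caps X Y)
    (hF : S.cap S.base / 2 ≤ S.val X Y S.base) :
    0 < S.val (insert x X) (insert y Y) S.base ∧
    - (S.cap S.base / S.val X Y S.base) + S.cap S.base / (S.val X Y S.base) ^ 2 *
        (S.val1 X Y S.base x - S.val1 X Y S.base y) - (4 * S.e2 + 16 * S.eb ^ 2)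
      ≤ - (S.cap S.base / S.val (insert x X) (insert y Y) S.base) := by
  have hcap := S.cap_pos S.base
  have heb := S.eb_nonneg
  have he16 := S.eb_le
  have he2 := S.e2_nonneg
  set F₀ := S.cap S.base with hF0
  set F := S.val X Y S.base with hFd
  set F' := S.val (insert x X) (insert y Y) S.base with hF'
  set a := S.val1 X Y S.base x with ha
  set b := S.val1 X Y S.base y with hb
  have ha0 : 0 ≤ a := S.val1_nonneg _ _ _ _
  have hb0 : 0 ≤ b := S.val1_nonneg _ _ _ _
  have ha1 : a ≤ S.eb * F₀ := S.val1_base_le hc x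
  have hb1 : b ≤ S.eb * F₀ := S.val1_base_le hc y
  have hd1 : S.val2 X Y S.base x y ≤ S.e2 * F₀ := S.val2_base_le hc h1
  have hL := S.val_base_lower (Y := Y) (y := y) hxX
  have hL' := S.val_base_lower' (Y := Y) (y := y) hxX
  have hU' := S.val_base_upper' (Y := Y) (y := y) hxX
  rw [← hFd, ← hF', ← ha, ← hb] at hL
  rw [← hFd, ← hF', ← hb] at hL'
  rw [← hFd, ← hF', ← ha] at hU'
  have hF0' : 0 < F := by linarith
  have hFq : F₀ / 4 ≤ F' := by
    have : S.eb * F₀ ≤ F₀ / 16 := by nlinarith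
    linarith
  have hF'0 : 0 < F' := by linarith
  refine ⟨hF'0, ?_⟩
  set δ := F' - F with hδ
  have hδ1 : δ ≤ S.eb * F₀ := by linarith
  have hδ2 : -(S.eb * F₀) ≤ δ := by linarith
  have hδsq : δ ^ 2 ≤ (S.eb * F₀) ^ 2 := sq_le_sq' hδ2 hδ1
  have hid : - (F₀ / F') = - (F₀ / F) + F₀ / F ^ 2 * δ - F₀ * δ ^ 2 / (F ^ 2 * F') := by
    have : F' = F + δ := by rw [hδ]; ring
    rw [hδ]
    field_simp
    ring
  have hg : F₀ / F ^ 2 * δ ≥ F₀ / F ^ 2 * (a - b) - 4 * S.e2 := by
    have h3 : δ ≥ (a - b) - S.e2 * F₀ := by linarith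
    have h4 : 0 ≤ F₀ / F ^ 2 := by positivity
    have h5 : F₀ / F ^ 2 * (S.e2 * F₀) ≤ 4 * S.e2 := by
      have h6 : F₀ / F ^ 2 * (S.e2 * F₀) = S.e2 * (F₀ ^ 2 / F ^ 2) := by
        field_simp
      rw [h6]
      have h7 : F₀ ^ 2 / F ^ 2 ≤ 4 := by
        rw [div_le_iff₀ (by positivity)]
        nlinarith
      nlinarith
    have h8 := mul_le_mul_of_nonneg_left h3 h4
    rw [mul_sub] at h8
    linarith
  have hs : F₀ * δ ^ 2 / (F ^ 2 * F') ≤ 16 * S.eb ^ 2 := by
    rw [div_le_iff₀ (by positivity)]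
    have h9 : F₀ * δ ^ 2 ≤ F₀ * (S.eb * F₀) ^ 2 := mul_le_mul_of_nonneg_left hδsq hcap.le
    have h10 : (F₀ / 2) ^ 2 ≤ F ^ 2 := pow_le_pow_left₀ (by positivity) hF 2
    have h11 : (F₀ / 2) ^ 2 * (F₀ / 4) ≤ F ^ 2 * F' :=
      mul_le_mul h10 hFq (by positivity) (by positivity)
    have h12 : 16 * S.eb ^ 2 * ((F₀ / 2) ^ 2 * (F₀ / 4)) ≤ 16 * S.eb ^ 2 * (F ^ 2 * F') :=
      mul_le_mul_of_nonneg_left h11 (by positivity)
    nlinarith
  rw [hid]
  linarith

/-- One round: a correctly settled point `x` and a wrongly settled point `y` with `j y ≤ j x`. -/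
lemma J_round (hxX : x ∉ X) (h1 : x ≠ y)
    (hP : S.Psi X Y ≤ 3)
    (hF : S.cap S.base / 2 ≤ S.val X Y S.base)
    (hj : S.j X Y y ≤ S.j X Y x) :
    0 < S.val (insert x X) (insert y Y) S.base ∧
    S.J X Y - S.err ≤ S.J (insert x X) (insert y Y) := by
  have hc := S.caps_of_Psi hP
  obtain ⟨hpos, hb⟩ := S.base_round (Y := Y) (y := y) hxX h1 hc hF
  refine ⟨hpos, ?_⟩
  have hPsi := S.Psi_round (Y := Y) (x := x) (y := y) hxX hc
  unfold J err
  unfold j at hj
  have h8 : S.cap S.base / (S.val X Y S.base) ^ 2 *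
        (S.val1 X Y S.base x - S.val1 X Y S.base y)
      = (S.cap S.base / (S.val X Y S.base) ^ 2 * S.val1 X Y S.base x)
        - S.cap S.base / (S.val X Y S.base) ^ 2 * S.val1 X Y S.base y := by ring
  rw [h8] at hb
  linarith

end round

/-- A good position: positive value and controlled potential. -/
def Good (X Y : Finset E) (t : ℝ) : Prop :=
  0 < S.val X Y S.base ∧ -(11 / 5) - t * S.err ≤ S.J X Y

lemma Good.bounds {X Y : Finset E} {t : ℝ} (h : S.Good X Y t) (ht : t * S.err ≤ 3 / 10) :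
    S.Psi X Y ≤ 3 ∧ S.cap S.base / 2 ≤ S.val X Y S.base := by
  obtain ⟨h0, h1⟩ := h
  unfold J at h1
  have hP := S.Psi_ge_one X Y
  have hcap := S.cap_pos S.base
  have hr : 0 ≤ S.cap S.base / S.val X Y S.base := by positivity
  constructor
  · linarith
  · have h2 : S.cap S.base / S.val X Y S.base ≤ 2 := by linarith
    rw [div_le_iff₀ h0] at h2
    linarith

lemma Good.round {X Y : Finset E} {t : ℝ} (h : S.Good X Y t) (ht : t * S.err ≤ 3 / 10)
    {x y : E} (hxX : x ∉ X) (h1 : x ≠ y) (hj : S.j X Y y ≤ S.j X Y x) :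
    S.Good (insert x X) (insert y Y) (t + 1) := by
  obtain ⟨hP, hF⟩ := Good.bounds S h ht
  obtain ⟨h2, h3⟩ := S.J_round hxX h1 hP hF hj
  refine ⟨h2, ?_⟩
  have := h.2
  linarith

lemma Good.last {X Y : Finset E} {t : ℝ} (h : S.Good X Y t) (ht : t * S.err ≤ 3 / 10)
    (y : E) : 0 < S.val X (insert y Y) S.base := by
  obtain ⟨hP, hF⟩ := Good.bounds S h ht
  have hc := S.caps_of_Psi hP
  have h1 := S.val1_base_le hc y
  have h2 := S.val_base_Y (X := X) (Y := Y) (y := y)
  have h3 := S.eb_le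
  have h4 := S.cap_pos S.base
  nlinarith

lemma exists_alive {X Y : Finset E} (h : 0 < S.val X Y S.base) :
    ∃ φ ∈ S.mem S.base, Disjoint (S.A φ) Y := by
  by_contra hcon
  push Not at hcon
  have : S.val X Y S.base = 0 := by
    unfold val
    apply Finset.sum_eq_zero
    intro φ hφ
    unfold wt
    rw [if_neg (hcon φ hφ)]
  linarith

end Sys

end Pool.Agent.Helper340.Crit11
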