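import Mathlib
import Pool.Agent.Helper340.TwoCol.Crit

set_option autoImplicit false
set_option linter.unusedVariables false
set_option linter.unusedSectionVars false
set_option linter.unusedSimpArgs false

namespace Pool.Agent.Helper340.TwoEdges

open Finset Pool.Agent.Helper340.Crit11

variable {V : Type*} [DecidableEq V] {q n : ℕ}

/-- the edge of the transversal `φ` between the parts `p.1` and `p.2` -/
def ed (e : Fin q × Fin n → V) (φ : Fin q → Fin n) (p : Fin q × Fin q) : Sym2 V :=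
  s(e (p.1, φ p.1), e (p.2, φ p.2))

abbrev Lev (q n : ℕ) := Finset (Fin q) × (Fin q → Fin n)

def lmem (κ : Lev q n) : Finset (Fin q → Fin n) :=
  univ.filter (fun φ => ∀ i ∈ κ.1, φ i = κ.2 i)

/-- ordered pairs inside `I` -/
def prs (I : Finset (Fin q)) : Finset (Fin q × Fin q) :=
  (I ×ˢ I).filter (fun p => p.1 < p.2)

def lred (e : Fin q × Fin n → V) (κ : Lev q n) (φ : Fin q → Fin n) : Finset (Sym2 V) :=
  (prs univ \ prs κ.1).image (ed e φ)

def eset (e : Fin q × Fin n → V) (φ : Fin q → Fin n) : Finset (Sym2 V) :=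
  (prs univ).image (ed e φ)

lemma card_prs (I : Finset (Fin q)) : (prs I).card = I.card.choose 2 := by
  have h1 : I.offDiag = prs I ∪ (prs I).image Prod.swap := by
    ext p
    obtain ⟨a, b⟩ := p
    simp only [prs, mem_offDiag, mem_union, mem_filter, mem_product, mem_image, Prod.exists,
      Prod.swap_prod_mk, Prod.mk.injEq]
    constructor
    · rintro ⟨ha, hb, hab⟩
      rcases lt_or_gt_of_ne hab with h | h
      · left; exact ⟨⟨ha, hb⟩, h⟩
      · right; exact ⟨b, a, ⟨⟨hb, ha⟩, h⟩, rfl, rfl⟩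
    · rintro (⟨⟨ha, hb⟩, h⟩ | ⟨c, d, ⟨⟨hc, hd⟩, h⟩, rfl, rfl⟩)
      · exact ⟨ha, hb, h.ne⟩
      · exact ⟨hd, hc, h.ne'⟩
  have h2 : Disjoint (prs I) ((prs I).image Prod.swap) := by
    rw [disjoint_left]
    rintro ⟨a, b⟩ h h'
    simp only [prs, mem_filter, mem_product, mem_image, Prod.exists, Prod.swap_prod_mk,
      Prod.mk.injEq] at h h'
    obtain ⟨c, d, ⟨_, hcd⟩, rfl, rfl⟩ := h'
    exact lt_asymm h.2 hcd
  have h3 : I.offDiag.card = (prs I).card + (prs I).card := by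
    rw [h1, card_union_of_disjoint h2, card_image_of_injective _ Prod.swap_injective]
  rw [offDiag_card] at h3
  rw [Nat.choose_two_right]
  have h4 : I.card * (I.card - 1) = I.card * I.card - I.card := by
    rw [Nat.mul_sub, mul_one]
  rw [h4]
  omega

lemma ed_inj {e : Fin q × Fin n → V} (he : Function.Injective e) {φ φ' : Fin q → Fin n}
    {p p' : Fin q × Fin q} (hp : p.1 < p.2) (hp' : p'.1 < p'.2)
    (h : ed e φ p = ed e φ' p') : p = p' ∧ φ p.1 = φ' p.1 ∧ φ p.2 = φ' p.2 := by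
  obtain ⟨a, b⟩ := p
  obtain ⟨c, d⟩ := p'
  unfold ed at h
  simp only [Sym2.eq_iff] at h
  simp only at hp hp'
  rcases h with ⟨h1, h2⟩ | ⟨h1, h2⟩
  · have h3 := he h1
    have h4 := he h2
    rw [Prod.mk.injEq] at h3 h4
    obtain ⟨rfl, h3⟩ := h3
    obtain ⟨rfl, h4⟩ := h4
    exact ⟨rfl, h3, h4⟩
  · have h3 := he h1
    have h4 := he h2
    rw [Prod.mk.injEq] at h3 h4
    obtain ⟨rfl, h3⟩ := h3
    obtain ⟨rfl, h4⟩ := h4
    exact absurd hp (lt_asymm hp')

lemma lred_sub (e : Fin q × Fin n → V) (κ : Lev q n) (φ : Fin q → Fin n) :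
    lred e κ φ ⊆ eset e φ := by
  unfold lred eset
  exact image_subset_image sdiff_subset

lemma prs_mono {I J : Finset (Fin q)} (h : I ⊆ J) : prs I ⊆ prs J := by
  unfold prs
  exact filter_subset_filter _ (product_subset_product h h)

lemma lred_anti (e : Fin q × Fin n → V) {κ κ' : Lev q n} (h : κ.1 ⊆ κ'.1) (φ : Fin q → Fin n) :
    lred e κ' φ ⊆ lred e κ φ := by
  unfold lred
  exact image_subset_image (sdiff_subset_sdiff (le_refl _) (prs_mono h))

lemma mem_lred {e : Fin q × Fin n → V} {κ : Lev q n} {φ : Fin q → Fin n} {u : Sym2 V} :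
    u ∈ lred e κ φ ↔ ∃ p : Fin q × Fin q, p.1 < p.2 ∧ ¬ (p.1 ∈ κ.1 ∧ p.2 ∈ κ.1) ∧
      ed e φ p = u := by
  unfold lred prs
  rw [mem_image]
  constructor
  · rintro ⟨p, hp, h⟩
    simp only [mem_sdiff, mem_filter, mem_product, mem_univ, true_and, not_and, not_lt] at hp
    refine ⟨p, hp.1, ?_, h⟩
    rintro ⟨h1, h2⟩
    have := hp.2 ⟨h1, h2⟩
    exact absurd hp.1 (not_lt.mpr this)
  · rintro ⟨p, h1, h2, h3⟩
    refine ⟨p, ?_, h3⟩
    simp only [mem_sdiff, mem_filter, mem_product, mem_univ, true_and, not_and, not_lt]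
    exact ⟨h1, fun h => absurd h h2⟩

lemma dom_one {e : Fin q × Fin n → V} (he : Function.Injective e) (κ : Lev q n)
    (φ₀ : Fin q → Fin n) (h0 : φ₀ ∈ lmem κ) (u : Sym2 V) (hu : u ∈ lred e κ φ₀) :
    ∃ κ' : Lev q n, κ.1.card < κ'.1.card ∧ 2 ≤ κ'.1.card ∧
      ∀ φ ∈ lmem κ, u ∈ lred e κ φ → φ ∈ lmem κ' ∧ lred e κ' φ ⊆ lred e κ φ := by
  obtain ⟨p, hp, hpn, hpu⟩ := mem_lred.mp hu
  refine ⟨(κ.1 ∪ {p.1, p.2}, φ₀), ?_, ?_, ?_⟩
  · apply card_lt_card
    rw [ssubset_iff_subset_ne]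
    refine ⟨subset_union_left, ?_⟩
    intro h
    apply hpn
    constructor
    · have : p.1 ∈ κ.1 ∪ {p.1, p.2} := by simp
      rw [h]; exact this
    · have : p.2 ∈ κ.1 ∪ {p.1, p.2} := by simp
      rw [h]; exact this
  · have h2 : ({p.1, p.2} : Finset (Fin q)).card = 2 := card_pair hp.ne
    rw [← h2]
    exact card_le_card subset_union_right
  · intro φ hφ huφ
    obtain ⟨p', hp', hpn', hpu'⟩ := mem_lred.mp huφ
    obtain ⟨rfl, hag1, hag2⟩ := ed_inj he hp' hp (hpu'.trans hpu.symm)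
    refine ⟨?_, lred_anti e (subset_union_left) φ⟩
    unfold lmem at hφ h0 ⊢
    simp only [mem_filter, mem_univ, true_and, mem_union, mem_insert, mem_singleton] at hφ h0 ⊢
    intro i hi
    rcases hi with hi | rfl | rfl
    · rw [hφ i hi, h0 i hi]
    · exact hag1
    · exact hag2

lemma dom_two {e : Fin q × Fin n → V} (he : Function.Injective e) (κ : Lev q n)
    (φ₀ : Fin q → Fin n) (h0 : φ₀ ∈ lmem κ) (u : Sym2 V) (hu : u ∈ lred e κ φ₀)
    (v : Sym2 V) (hv : v ∈ lred e κ φ₀) (huv : u ≠ v) :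
    ∃ κ' : Lev q n, 3 ≤ κ'.1.card ∧
      ∀ φ ∈ lmem κ, u ∈ lred e κ φ → v ∈ lred e κ φ →
        φ ∈ lmem κ' ∧ lred e κ' φ ⊆ lred e κ φ := by
  obtain ⟨p, hp, hpn, hpu⟩ := mem_lred.mp hu
  obtain ⟨t, ht, htn, htu⟩ := mem_lred.mp hv
  have hpt : p ≠ t := by
    rintro rfl; exact huv (hpu.symm.trans htu)
  refine ⟨(κ.1 ∪ ({p.1, p.2} ∪ {t.1, t.2}), φ₀), ?_, ?_⟩
  · have h3 : 3 ≤ (({p.1, p.2} : Finset (Fin q)) ∪ {t.1, t.2}).card := by
      by_contra hlt
      push Not at hlt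
      have h1 : ({p.1, p.2} : Finset (Fin q)) ⊆ {p.1, p.2} ∪ {t.1, t.2} := subset_union_left
      have h2 : ({t.1, t.2} : Finset (Fin q)) ⊆ {p.1, p.2} ∪ {t.1, t.2} := subset_union_right
      have c1 : ({p.1, p.2} : Finset (Fin q)).card = 2 := card_pair hp.ne
      have c2 : ({t.1, t.2} : Finset (Fin q)).card = 2 := card_pair ht.ne
      have h3 := eq_of_subset_of_card_le h1 (by omega)
      have h4 := eq_of_subset_of_card_le h2 (by omega)
      have h5 : ({p.1, p.2} : Finset (Fin q)) = {t.1, t.2} := h3.trans h4.symm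
      apply hpt
      obtain ⟨a, b⟩ := p
      obtain ⟨c, d⟩ := t
      simp only at hp ht h5
      have ha : a = c ∨ a = d := by
        have : a ∈ ({a, b} : Finset (Fin q)) := by simp
        rw [h5] at this
        simpa using this
      have hb : b = c ∨ b = d := by
        have : b ∈ ({a, b} : Finset (Fin q)) := by simp
        rw [h5] at this
        simpa using this
      rcases ha with rfl | rfl <;> rcases hb with rfl | rfl
      · exact absurd hp (lt_irrefl _)
      · rfl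
      · exact absurd hp (lt_asymm ht)
      · exact absurd hp (lt_irrefl _)
    exact h3.trans (card_le_card subset_union_right)
  · intro φ hφ huφ hvφ
    obtain ⟨p', hp', hpn', hpu'⟩ := mem_lred.mp huφ
    obtain ⟨t', ht', htn', htu'⟩ := mem_lred.mp hvφ
    obtain ⟨rfl, hag1, hag2⟩ := ed_inj he hp' hp (hpu'.trans hpu.symm)
    obtain ⟨rfl, hag3, hag4⟩ := ed_inj he ht' ht (htu'.trans htu.symm)
    refine ⟨?_, lred_anti e (subset_union_left) φ⟩
    unfold lmem at hφ h0 ⊢
    simp only [mem_filter, mem_univ, true_and, mem_union, mem_insert, mem_singleton] at hφ h0 ⊢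
    intro i hi
    rcases hi with hi | (rfl | rfl) | (rfl | rfl)
    · rw [hφ i hi, h0 i hi]
    · exact hag1
    · exact hag2
    · exact hag3
    · exact hag4

lemma card_lmem (κ : Lev q n) : (lmem κ).card = n ^ (q - κ.1.card) := by
  have h : lmem κ = Fintype.piFinset (fun i => if i ∈ κ.1 then {κ.2 i} else (univ : Finset (Fin n))) := by
    ext φ
    unfold lmem
    simp only [mem_filter, mem_univ, true_and, Fintype.mem_piFinset]
    constructor
    · intro h i
      split_ifs with hi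
      · rw [mem_singleton]; exact h i hi
      · exact mem_univ _
    · intro h i hi
      have := h i
      rw [if_pos hi, mem_singleton] at this
      exact this
  rw [h, Fintype.card_piFinset]
  have h2 : ∀ i : Fin q, (if i ∈ κ.1 then ({κ.2 i} : Finset (Fin n)) else univ).card
      = if i ∈ κ.1 then 1 else n := by
    intro i; split_ifs <;> simp
  rw [prod_congr rfl (fun i _ => h2 i), prod_ite]
  simp only [prod_const_one, one_mul, prod_const]
  congr 1
  have : (univ.filter (fun i => i ∉ κ.1)) = κ.1ᶜ := by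
    ext i; simp
  rw [this, card_compl, Fintype.card_fin]

lemma card_lred {e : Fin q × Fin n → V} (he : Function.Injective e) (κ : Lev q n)
    (φ : Fin q → Fin n) : (lred e κ φ).card + κ.1.card.choose 2 = q.choose 2 := by
  unfold lred
  rw [card_image_of_injOn]
  · have h1 := card_sdiff_add_card_eq_card (prs_mono (subset_univ κ.1))
    rw [card_prs, card_prs, card_univ, Fintype.card_fin] at h1
    exact h1
  · intro p hp p' hp' h
    rw [mem_coe, mem_sdiff] at hp hp'
    have h1 : p.1 < p.2 := (mem_filter.mp hp.1).2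
    have h2 : p'.1 < p'.2 := (mem_filter.mp hp'.1).2
    exact (ed_inj he h1 h2 h).1

/-- exponents of the caps -/
def dd (Kp i : ℕ) : ℕ := if i = 0 then 0 else if i ≤ 2 then Kp + 1 else 2 * Kp + i - 2

lemma dd_lt {Kp : ℕ} (hK : 1 ≤ Kp) {i i' : ℕ} (hi : 2 ≤ i) (h : i < i') :
    dd Kp i + 1 ≤ dd Kp i' := by
  unfold dd
  split_ifs <;> omega

lemma dd_two {Kp : ℕ} (hK : 1 ≤ Kp) {i : ℕ} (hi : 2 ≤ i) : Kp + 1 ≤ dd Kp i := by
  unfold dd
  split_ifs <;> omega

lemma dd_three {Kp : ℕ} {i : ℕ} (hi : 3 ≤ i) : 2 * Kp + 1 ≤ dd Kp i := by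
  unfold dd
  split_ifs <;> omega

/-- the numerical hypotheses -/
structure Par (q n m Kp : ℕ) (lam : ℝ) : Prop where
  q3 : 3 ≤ q
  n1 : 1 ≤ n
  m16 : 16 ≤ m
  K1 : 1 ≤ Kp
  lam1 : 1 ≤ lam
  lamexp : 3 * ((2 : ℝ) ^ q * (n : ℝ) ^ q) ≤ Real.exp lam
  lamm : 4 * lam * ((q : ℝ) ^ 2 + 1) ^ 2 ≤ m
  start : ∀ i, 2 ≤ i → i ≤ q →
    8 * lam * (1 + (q : ℝ) ^ 2) * (2 : ℝ) ^ (i.choose 2) * (m : ℝ) ^ (dd Kp i) ≤ (n : ℝ) ^ i

noncomputable def F0 (q n : ℕ) : ℝ := (n : ℝ) ^ q * (1 / 2 : ℝ) ^ (q.choose 2)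

section sys
variable {m Kp : ℕ} {lam : ℝ}

lemma F0_pos (h : 1 ≤ n) : 0 < F0 q n := by
  unfold F0
  have : (0 : ℝ) < n := by exact_mod_cast h
  positivity

lemma pow_cmp {m a b : ℕ} (hm : 1 ≤ m) (h : a ≤ b) : 1 / (m : ℝ) ^ b ≤ 1 / (m : ℝ) ^ a := by
  have h1 : (1 : ℝ) ≤ m := by exact_mod_cast hm
  exact one_div_le_one_div_of_le (by positivity) (pow_le_pow_right₀ h1 h)

/-- the system of levels -/
noncomputable def theSys (P : Par q n m Kp lam) (e : Fin q × Fin n → V)
    (he : Function.Injective e) : Sys (Sym2 V) (Fin q → Fin n) (Lev q n) where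
  A := eset e
  mem := lmem
  red := lred e
  K := univ.filter (fun κ => 2 ≤ κ.1.card)
  base := (∅, fun _ => ⟨0, P.n1⟩)
  cap := fun κ => F0 q n / (m : ℝ) ^ (dd Kp κ.1.card)
  e1 := 1 / (m : ℝ)
  eb := 1 / (m : ℝ) ^ (Kp + 1)
  e2 := 1 / (m : ℝ) ^ (2 * Kp + 1)
  lam := lam
  Q := (q : ℝ) ^ 2
  red_sub := lred_sub e
  red_base := by
    intro φ
    unfold lred eset
    simp [prs]
  red_card := by
    intro κ φ
    have h1 := card_lred he κ φ
    have h2 : q.choose 2 ≤ q ^ 2 := Nat.choose_le_pow q 2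
    have h3 : (lred e κ φ).card ≤ q ^ 2 := by omega
    exact_mod_cast h3
  cap_pos := by
    intro κ
    have h1 := F0_pos (q := q) P.n1
    have h2 : (0 : ℝ) < m := by
      have := P.m16
      have : 0 < m := by omega
      exact_mod_cast this
    positivity
  K_ne := by
    refine ⟨(univ, fun _ => ⟨0, P.n1⟩), ?_⟩
    rw [mem_filter]
    refine ⟨mem_univ _, ?_⟩
    simp only [card_univ, Fintype.card_fin]
    have := P.q3
    omega
  one := by
    intro κ hκ φ₀ h0 u hu
    rw [mem_filter] at hκ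
    obtain ⟨κ', hc, hc2, hdom⟩ := dom_one he κ φ₀ h0 u hu
    refine ⟨κ', ?_, ?_, hdom⟩
    · rw [mem_filter]; exact ⟨mem_univ _, hc2⟩
    · have h1 := F0_pos (q := q) P.n1
      have hm : 1 ≤ m := by have := P.m16; omega
      have hm0 : (0 : ℝ) < m := by exact_mod_cast (show 0 < m by omega)
      have h2 := pow_cmp hm (dd_lt P.K1 hκ.2 hc)
      have h3 : 1 / (m : ℝ) * (F0 q n / (m : ℝ) ^ (dd Kp κ.1.card))
          = F0 q n * (1 / (m : ℝ) ^ (dd Kp κ.1.card + 1)) := by
        rw [pow_succ]; field_simp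
      rw [h3]
      have h4 : F0 q n / (m : ℝ) ^ (dd Kp κ'.1.card)
          = F0 q n * (1 / (m : ℝ) ^ (dd Kp κ'.1.card)) := by
        rw [mul_one_div]
      rw [h4]
      exact mul_le_mul_of_nonneg_left h2 h1.le
  bone := by
    intro φ₀ h0 u hu
    obtain ⟨κ', hc, hc2, hdom⟩ := dom_one he _ φ₀ h0 u hu
    refine ⟨κ', ?_, ?_, hdom⟩
    · rw [mem_filter]; exact ⟨mem_univ _, hc2⟩
    · have h1 := F0_pos (q := q) P.n1
      have hm : 1 ≤ m := by have := P.m16; omega
      have h2 := pow_cmp hm (dd_two P.K1 hc2)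
      simp only [card_empty]
      have h3 : dd Kp 0 = 0 := by unfold dd; simp
      rw [h3, pow_zero, div_one]
      have h4 : F0 q n / (m : ℝ) ^ (dd Kp κ'.1.card)
          = (1 / (m : ℝ) ^ (dd Kp κ'.1.card)) * F0 q n := by
        rw [mul_comm, mul_one_div]
      rw [h4]
      exact mul_le_mul_of_nonneg_right h2 h1.le
  btwo := by
    intro φ₀ h0 u hu v hv huv
    obtain ⟨κ', hc2, hdom⟩ := dom_two he _ φ₀ h0 u hu v hv huv
    refine ⟨κ', ?_, ?_, hdom⟩
    · rw [mem_filter]; exact ⟨mem_univ _, by omega⟩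
    · have h1 := F0_pos (q := q) P.n1
      have hm : 1 ≤ m := by have := P.m16; omega
      have h2 := pow_cmp hm (dd_three (Kp := Kp) hc2)
      simp only [card_empty]
      have h3 : dd Kp 0 = 0 := by unfold dd; simp
      rw [h3, pow_zero, div_one]
      have h4 : F0 q n / (m : ℝ) ^ (dd Kp κ'.1.card)
          = (1 / (m : ℝ) ^ (dd Kp κ'.1.card)) * F0 q n := by
        rw [mul_comm, mul_one_div]
      rw [h4]
      exact mul_le_mul_of_nonneg_right h2 h1.le
  lam_ge := P.lam1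
  Q_ge := by
    have h : (3 : ℝ) ≤ q := by exact_mod_cast P.q3
    nlinarith
  e1_nonneg := by positivity
  eb_nonneg := by positivity
  e2_nonneg := by positivity
  eb_le := by
    have hm : 1 ≤ m := by have := P.m16; omega
    have h1 := pow_cmp hm (show 1 ≤ Kp + 1 by omega)
    have h2 : (16 : ℝ) ≤ m := by exact_mod_cast P.m16
    have h3 : 1 / (m : ℝ) ^ 1 ≤ 1 / 16 := by
      rw [pow_one]
      exact one_div_le_one_div_of_le (by norm_num) h2
    exact h1.trans h3
  lam_e1 := by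
    have h2 : (16 : ℝ) ≤ m := by exact_mod_cast P.m16
    have h3 := P.lamm
    rw [mul_one_div, div_le_one (by linarith)]
    exact h3
  K_le := by
    have h1 : ((univ : Finset (Lev q n)).filter (fun κ => 2 ≤ κ.1.card)).card
        ≤ 2 ^ q * n ^ q := by
      refine (card_le_univ _).trans (le_of_eq ?_)
      simp [Lev]
    have h2 : (((univ : Finset (Lev q n)).filter (fun κ => 2 ≤ κ.1.card)).card : ℝ)
        ≤ (2 : ℝ) ^ q * (n : ℝ) ^ q := by exact_mod_cast h1
    have := P.lamexp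
    linarith

lemma err_le (P : Par q n m Kp lam) (e : Fin q × Fin n → V)
    (he : Function.Injective e) : (theSys P e he).err ≤ 5 / (m : ℝ) ^ (2 * Kp + 1) := by
  unfold Sys.err theSys
  simp only
  have h2 : (16 : ℝ) ≤ m := by exact_mod_cast P.m16
  have h3 : (1 / (m : ℝ) ^ (Kp + 1)) ^ 2 = 1 / (m : ℝ) ^ (2 * Kp + 1) * (1 / m) := by
    have : (m : ℝ) ^ (2 * Kp + 1) * m = ((m : ℝ) ^ (Kp + 1)) ^ 2 := by ring
    rw [one_div_pow, ← this]
    have : (0 : ℝ) < m := by linarith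
    field_simp
  rw [h3]
  have h4 : 1 / (m : ℝ) ≤ 1 / 16 := one_div_le_one_div_of_le (by norm_num) h2
  have h5 : 0 ≤ 1 / (m : ℝ) ^ (2 * Kp + 1) := by positivity
  have h6 := mul_le_mul_of_nonneg_left h4 h5
  have h7 : 5 / (m : ℝ) ^ (2 * Kp + 1) = 5 * (1 / (m : ℝ) ^ (2 * Kp + 1)) := by rw [mul_one_div]
  rw [h7]
  linarith

lemma wt_empty {E : Type*} [DecidableEq E] (s a : Finset E) : wt ∅ ∅ s a = (1 / 2 : ℝ) ^ a.card := by
  unfold wt
  simp

lemma base_start (P : Par q n m Kp lam) (e : Fin q × Fin n → V)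
    (he : Function.Injective e) :
    (theSys P e he).val ∅ ∅ (theSys P e he).base = (theSys P e he).cap (theSys P e he).base := by
  unfold Sys.val
  have h : ∀ φ ∈ (theSys P e he).mem (theSys P e he).base,
      wt ∅ ∅ ((theSys P e he).A φ) ((theSys P e he).red (theSys P e he).base φ)
        = (1 / 2 : ℝ) ^ (q.choose 2) := by
    intro φ _
    rw [wt_empty]
    congr 1
    have := card_lred he (theSys P e he).base φ
    have h0 : (theSys P e he).base.1.card = 0 := by
      unfold theSys; simp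
    rw [h0] at this
    have h9 : (lred e (theSys P e he).base φ).card = q.choose 2 := by simpa using this
    exact h9
  rw [sum_congr rfl h, sum_const, nsmul_eq_mul]
  have h1 : ((theSys P e he).mem (theSys P e he).base).card = n ^ q := by
    have := card_lmem (theSys P e he).base
    have h0 : (theSys P e he).base.1.card = 0 := by
      unfold theSys; simp
    rw [h0, Nat.sub_zero] at this
    exact this
  rw [h1]
  have h2 : (theSys P e he).cap (theSys P e he).base = F0 q n := by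
    unfold theSys
    simp [dd]
  rw [h2]
  unfold F0
  push_cast
  rfl

lemma z_start (P : Par q n m Kp lam) (e : Fin q × Fin n → V)
    (he : Function.Injective e) (κ : Lev q n) (hκ : κ ∈ (theSys P e he).K) :
    (theSys P e he).lam * (theSys P e he).z ∅ ∅ κ ≤ 1 / 8 := by
  have hκ2 : 2 ≤ κ.1.card := by
    have : κ ∈ (univ : Finset (Lev q n)).filter (fun κ => 2 ≤ κ.1.card) := hκ
    rw [mem_filter] at this
    exact this.2
  have hκq : κ.1.card ≤ q := by
    have := card_le_univ κ.1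
    simpa using this
  have hn : (0 : ℝ) < n := by exact_mod_cast P.n1
  have hm : (0 : ℝ) < m := by
    have := P.m16
    have : 0 < m := by omega
    exact_mod_cast this
  have hl := P.lam1
  set i := κ.1.card with hi
  -- value at the start
  have hv : (theSys P e he).vat ∅ ∅ κ
      ≤ (n : ℝ) ^ (q - i) * ((1 / 2 : ℝ) ^ (q.choose 2) * (2 : ℝ) ^ (i.choose 2)
          * (1 + (q : ℝ) ^ 2)) := by
    unfold Sys.vat
    have h : ∀ φ ∈ (theSys P e he).mem κ,
        ut ∅ ∅ ((theSys P e he).A φ) ((theSys P e he).red κ φ)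
          ≤ (1 / 2 : ℝ) ^ (q.choose 2) * (2 : ℝ) ^ (i.choose 2) * (1 + (q : ℝ) ^ 2) := by
      intro φ _
      unfold ut
      rw [wt_empty, sdiff_empty]
      have h1 : ((theSys P e he).red κ φ).card + i.choose 2 = q.choose 2 := card_lred he κ φ
      have h2 : (((theSys P e he).red κ φ).card : ℝ) ≤ (q : ℝ) ^ 2 := (theSys P e he).red_card κ φ
      have h3 : (1 / 2 : ℝ) ^ (q.choose 2) * (2 : ℝ) ^ (i.choose 2)
          = (1 / 2 : ℝ) ^ ((theSys P e he).red κ φ).card := by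
        rw [← h1, pow_add, mul_assoc, ← mul_pow]
        norm_num
      rw [h3]
      apply mul_le_mul_of_nonneg_left _ (by positivity)
      linarith
    refine (sum_le_sum h).trans (le_of_eq ?_)
    rw [sum_const, nsmul_eq_mul]
    have h1 : ((theSys P e he).mem κ).card = n ^ (q - i) := card_lmem κ
    rw [h1]
    push_cast
    rfl
  have hcap : (theSys P e he).cap κ = F0 q n / (m : ℝ) ^ (dd Kp i) := rfl
  have hlam : (theSys P e he).lam = lam := rfl
  rw [hlam]
  unfold Sys.z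
  rw [← mul_div_assoc, div_le_iff₀ ((theSys P e he).cap_pos κ), hcap]
  have hs := P.start i hκ2 hκq
  have hnq : (n : ℝ) ^ q = (n : ℝ) ^ (q - i) * (n : ℝ) ^ i := by
    rw [← pow_add]; congr 1; omega
  have h5 : lam * (theSys P e he).vat ∅ ∅ κ
      ≤ lam * ((n : ℝ) ^ (q - i) * ((1 / 2 : ℝ) ^ (q.choose 2) * (2 : ℝ) ^ (i.choose 2)
          * (1 + (q : ℝ) ^ 2))) := mul_le_mul_of_nonneg_left hv (by linarith)
  refine h5.trans ?_
  unfold F0
  rw [hnq, ← mul_div_assoc, le_div_iff₀ (by positivity)]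
  have h6 : 0 ≤ (n : ℝ) ^ (q - i) * (1 / 2 : ℝ) ^ (q.choose 2) := by positivity
  have h7 := mul_le_mul_of_nonneg_left hs h6
  calc lam * ((n : ℝ) ^ (q - i) * ((1 / 2 : ℝ) ^ (q.choose 2) * (2 : ℝ) ^ (i.choose 2)
          * (1 + (q : ℝ) ^ 2))) * (m : ℝ) ^ (dd Kp i)
      = (1 / 8) * ((n : ℝ) ^ (q - i) * (1 / 2 : ℝ) ^ (q.choose 2) *
        (8 * lam * (1 + (q : ℝ) ^ 2) * (2 : ℝ) ^ (i.choose 2) * (m : ℝ) ^ (dd Kp i))) := by ring
    _ ≤ (1 / 8) * ((n : ℝ) ^ (q - i) * (1 / 2 : ℝ) ^ (q.choose 2) * (n : ℝ) ^ i) :=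
        mul_le_mul_of_nonneg_left h7 (by norm_num)
    _ = 1 / 8 * ((n : ℝ) ^ (q - i) * (n : ℝ) ^ i * (1 / 2 : ℝ) ^ (q.choose 2)) := by ring

end sys

end Pool.Agent.Helper340.TwoEdges
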