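import Mathlib
import Pool.Agent.Helper340.TwoCol.Crit

set_option autoImplicit false
set_option linter.unusedVariables false
set_option linter.unusedSectionVars false
set_option linter.unusedSimpArgs false

namespace Pool.Agent.Helper340.TwoPlay

open Finset Pool.Agent.Helper340.Crit11

/-- Red (to move iff the flag is `true`) can force the goal, when exactly `j` moves remain. -/
def W {E : Type*} [DecidableEq E] (D : Finset E) (goal : Finset E → Finset E → Prop) :
    ℕ → Bool → Finset E → Finset E → Prop
  | 0, _, R, B => goal R B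
  | (j + 1), true, R, B => ∃ e ∈ D \ (R ∪ B), W D goal j false (insert e R) B
  | (j + 1), false, R, B => ∀ e ∈ D \ (R ∪ B), W D goal j true R (insert e B)

variable {E Φ L : Type*} [DecidableEq E] [DecidableEq Φ] (S : Sys E Φ L)

/-- the target: some `A φ` with its `DR` part red and the rest blue -/
def Target (DR : Finset E) (R B : Finset E) : Prop :=
  ∃ φ, ∀ e ∈ S.A φ, (e ∈ DR → e ∈ R) ∧ (e ∉ DR → e ∈ B)

lemma free_insert {D R B : Finset E} {e : E} (he : e ∈ D \ (R ∪ B)) :
    (D \ (insert e R ∪ B)).card = (D \ (R ∪ B)).card - 1 := by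
  have h1 : D \ (insert e R ∪ B) = (D \ (R ∪ B)).erase e := by
    ext z; simp only [mem_sdiff, mem_union, mem_insert, mem_erase, not_or]; tauto
  rw [h1, card_erase_of_mem he]

lemma free_insert' {D R B : Finset E} {e : E} (he : e ∈ D \ (R ∪ B)) :
    (D \ (R ∪ insert e B)).card = (D \ (R ∪ B)).card - 1 := by
  have h1 : D \ (R ∪ insert e B) = (D \ (R ∪ B)).erase e := by
    ext z; simp only [mem_sdiff, mem_union, mem_insert, mem_erase, not_or]; tauto
  rw [h1, card_erase_of_mem he]

lemma target_of_pos {D DR R B Y : Finset E} (hA : ∀ φ, S.A φ ⊆ D) (hcl : D ⊆ R ∪ B)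
    (h1 : ∀ e ∈ DR, e ∈ B → e ∈ Y) (h2 : ∀ e ∈ D, e ∉ DR → e ∈ R → e ∈ Y)
    {X : Finset E} (hpos : 0 < S.val X Y S.base) : Target S DR R B := by
  obtain ⟨φ, _, hφ⟩ := S.exists_alive hpos
  refine ⟨φ, fun e he => ?_⟩
  have heD := hA φ he
  have hc := hcl heD
  have hY : e ∉ Y := fun h => (disjoint_left.mp hφ he) h
  rw [mem_union] at hc
  constructor
  · intro hR
    rcases hc with hc | hc
    · exact hc
    · exact absurd (h1 e hR hc) hY
  · intro hR
    rcases hc with hc | hc
    · exact absurd (h2 e heD hR hc) hY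
    · exact hc

/-- second phase: all points of `DR` are taken. -/
theorem phase2 (D DR : Finset E) (hA : ∀ φ, S.A φ ⊆ D) (T : ℝ) (hT : T * S.err ≤ 3 / 10) :
    ∀ j : ℕ, ∀ R B X Y : Finset E, ∀ t : ℝ, (D \ (R ∪ B)).card = j →
      D ∩ DR ⊆ R ∪ B → (∀ e ∈ DR, e ∈ B → e ∈ Y) → (∀ e ∈ D, e ∉ DR → e ∈ R → e ∈ Y) →
      X ⊆ R ∪ B → S.Good X Y t → t + j ≤ T →
      W D (Target S DR) j true R B := by
  intro j
  induction j using Nat.strong_induction_on with
  | _ j ih =>
  intro R B X Y t hcard hDR h1 h2 hX hG ht
  have herr := S.err_nonneg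
  have htT : t * S.err ≤ 3 / 10 := by
    have hj0 : (0 : ℝ) ≤ (j : ℝ) := Nat.cast_nonneg _
    have : t * S.err ≤ T * S.err := mul_le_mul_of_nonneg_right (by linarith) herr
    linarith
  rcases Nat.eq_zero_or_pos j with hj | hj
  · subst hj
    show Target S DR R B
    have hcl : D ⊆ R ∪ B := by
      rw [card_eq_zero, sdiff_eq_empty_iff_subset] at hcard
      exact hcard
    exact target_of_pos S hA hcl h1 h2 hG.1
  · obtain ⟨j', rfl⟩ : ∃ j', j = j' + 1 := ⟨j - 1, by omega⟩
    have hne : (D \ (R ∪ B)).Nonempty := by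
      rw [← card_pos]; omega
    obtain ⟨m, hm, hmin⟩ := exists_min_image (D \ (R ∪ B)) (S.j X Y) hne
    refine ⟨m, hm, ?_⟩
    have hm' := hm
    simp only [mem_sdiff, mem_union, not_or] at hm'
    have hcard1 := free_insert hm
    rcases Nat.eq_zero_or_pos j' with hj' | hj'
    · subst hj'
      show Target S DR (insert m R) B
      have hcl : D ⊆ insert m R ∪ B := by
        rw [hcard] at hcard1
        simp only [zero_add, Nat.sub_self, card_eq_zero, sdiff_eq_empty_iff_subset] at hcard1
        exact hcard1
      refine target_of_pos S (Y := insert m Y) hA hcl ?_ ?_ (Sys.Good.last S hG htT m)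
      · intro e he heB
        exact mem_insert_of_mem (h1 e he heB)
      · intro e heD he heR
        rcases mem_insert.mp heR with rfl | h
        · exact mem_insert_self _ _
        · exact mem_insert_of_mem (h2 e heD he h)
    · obtain ⟨j'', rfl⟩ : ∃ j'', j' = j'' + 1 := ⟨j' - 1, by omega⟩
      show ∀ p ∈ D \ (insert m R ∪ B), W D (Target S DR) j'' true (insert m R) (insert p B)
      intro p hp
      have hp' := hp
      simp only [mem_sdiff, mem_union, mem_insert, not_or] at hp'
      obtain ⟨hpD, ⟨hpm, hpR⟩, hpB⟩ := hp'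
      have hpfree : p ∈ D \ (R ∪ B) := by
        simp only [mem_sdiff, mem_union, not_or]; exact ⟨hpD, hpR, hpB⟩
      have hpX : p ∉ X := by
        intro h
        have := hX h
        rw [mem_union] at this
        rcases this with h | h
        · exact hpR h
        · exact hpB h
      have hcard2 := free_insert' hp
      apply ih j'' (by omega) (insert m R) (insert p B) (insert p X) (insert m Y) (t + 1)
      · rw [hcard2, hcard1, hcard]; omega
      · intro z hz
        have := hDR hz
        rw [mem_union] at this ⊢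
        rcases this with h | h
        · left; exact mem_insert_of_mem h
        · right; exact mem_insert_of_mem h
      · intro e he heB
        rcases mem_insert.mp heB with rfl | h
        · exfalso
          have := hDR (mem_inter.mpr ⟨hpD, he⟩)
          rw [mem_union] at this
          rcases this with h | h
          · exact hpR h
          · exact hpB h
        · exact mem_insert_of_mem (h1 e he h)
      · intro e heD he heR
        rcases mem_insert.mp heR with rfl | h
        · exact mem_insert_self _ _
        · exact mem_insert_of_mem (h2 e heD he h)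
      · intro z hz
        rw [mem_union]
        rcases mem_insert.mp hz with rfl | h
        · right; exact mem_insert_self _ _
        · have := hX h
          rw [mem_union] at this
          rcases this with h | h
          · left; exact mem_insert_of_mem h
          · right; exact mem_insert_of_mem h
      · exact Sys.Good.round S hG htT hpX hpm (hmin p hpfree)
      · push_cast at ht
        linarith

/-- first phase: Red plays inside `DR`. -/
theorem phase1 (D DR : Finset E) (hA : ∀ φ, S.A φ ⊆ D) (hDRD : DR ⊆ D)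
    (T : ℝ) (hT : T * S.err ≤ 3 / 10) :
    ∀ j : ℕ, ∀ R B X Y : Finset E, ∀ t : ℝ, (D \ (R ∪ B)).card = j →
      R ⊆ DR → (∀ e ∈ DR, e ∈ B → e ∈ Y) → 
      X ⊆ R → Y ⊆ B → S.Good X Y t → t + j ≤ T →
      W D (Target S DR) j true R B := by
  intro j
  induction j using Nat.strong_induction_on with
  | _ j ih =>
  intro R B X Y t hcard hR h1 hX hY hG ht
  have herr := S.err_nonneg
  have htT : t * S.err ≤ 3 / 10 := by
    have hj0 : (0 : ℝ) ≤ (j : ℝ) := Nat.cast_nonneg _
    have : t * S.err ≤ T * S.err := mul_le_mul_of_nonneg_right (by linarith) herr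
    linarith
  by_cases hcl : D ∩ DR ⊆ R ∪ B
  · exact phase2 S D DR hA T hT j R B X Y t hcard hcl h1
      (fun e _ he heR => absurd (hR heR) he) (hX.trans subset_union_left) hG ht
  · rw [not_subset] at hcl
    obtain ⟨e₀, he₀, he₀'⟩ := hcl
    rw [mem_inter] at he₀
    rw [mem_union, not_or] at he₀'
    have hjpos : 0 < j := by
      rw [← hcard, card_pos]
      exact ⟨e₀, by simp only [mem_sdiff, mem_union, not_or]; exact ⟨he₀.1, he₀'⟩⟩
    obtain ⟨j', rfl⟩ : ∃ j', j = j' + 1 := ⟨j - 1, by omega⟩
    -- the virtual choice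
    have hne : (DR \ (X ∪ Y)).Nonempty :=
      ⟨e₀, by
        simp only [mem_sdiff, mem_union, not_or]
        exact ⟨he₀.2, fun h => he₀'.1 (hX h), fun h => he₀'.2 (hY h)⟩⟩
    obtain ⟨e, he, hmax⟩ := exists_max_image (DR \ (X ∪ Y)) (S.j X Y) hne
    have he' := he
    simp only [mem_sdiff, mem_union, not_or] at he'
    obtain ⟨heDR, heX, heY⟩ := he'
    have heB : e ∉ B := fun h => heY (h1 e heDR h)
    -- the real move
    obtain ⟨r, hrDR, hrR, hrB, her⟩ : ∃ r ∈ DR, r ∉ R ∧ r ∉ B ∧ e ∈ insert r R := by
      by_cases heR : e ∈ R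
      · exact ⟨e₀, he₀.2, he₀'.1, he₀'.2, mem_insert_of_mem heR⟩
      · exact ⟨e, heDR, heR, heB, mem_insert_self _ _⟩
    have hrfree : r ∈ D \ (R ∪ B) := by
      simp only [mem_sdiff, mem_union, not_or]; exact ⟨hDRD hrDR, hrR, hrB⟩
    refine ⟨r, hrfree, ?_⟩
    have hcard1 := free_insert hrfree
    have hR' : insert r R ⊆ DR := insert_subset hrDR hR
    rcases Nat.eq_zero_or_pos j' with hj' | hj'
    · subst hj'
      show Target S DR (insert r R) B
      have hcl : D ⊆ insert r R ∪ B := by
        rw [hcard] at hcard1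
        simp only [zero_add, Nat.sub_self, card_eq_zero, sdiff_eq_empty_iff_subset] at hcard1
        exact hcard1
      exact target_of_pos S hA hcl h1 (fun e _ he heR => absurd (hR' heR) he) hG.1
    · obtain ⟨j'', rfl⟩ : ∃ j'', j' = j'' + 1 := ⟨j' - 1, by omega⟩
      show ∀ p ∈ D \ (insert r R ∪ B), W D (Target S DR) j'' true (insert r R) (insert p B)
      intro p hp
      have hp' := hp
      simp only [mem_sdiff, mem_union, not_or] at hp'
      obtain ⟨hpD, hpR, hpB⟩ := hp'
      have hcard2 := free_insert' hp
      have hcard3 : (D \ (insert r R ∪ insert p B)).card = j'' := by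
        rw [hcard2, hcard1, hcard]; omega
      by_cases hpDR : p ∈ DR
      · have hpe : e ≠ p := by
          rintro rfl; exact hpR her
        have hpF : p ∈ DR \ (X ∪ Y) := by
          simp only [mem_sdiff, mem_union, not_or]
          exact ⟨hpDR, fun h => hpR (mem_insert_of_mem (hX h)), fun h => hpB (hY h)⟩
        apply ih j'' (by omega) (insert r R) (insert p B) (insert e X) (insert p Y) (t + 1) hcard3
          hR'
        · intro z hz hzB
          rcases mem_insert.mp hzB with rfl | h
          · exact mem_insert_self _ _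
          · exact mem_insert_of_mem (h1 z hz h)
        · exact insert_subset her (hX.trans (subset_insert _ _))
        · exact insert_subset_insert _ hY
        · exact Sys.Good.round S hG htT heX hpe (hmax p hpF)
        · push_cast at ht
          linarith
      · apply ih j'' (by omega) (insert r R) (insert p B) X Y t hcard3 hR'
        · intro z hz hzB
          rcases mem_insert.mp hzB with rfl | h
          · exact absurd hz hpDR
          · exact h1 z hz h
        · exact hX.trans (subset_insert _ _)
        · exact hY.trans (subset_insert _ _)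
        · exact hG
        · push_cast at ht
          linarith

/-- Red forces the target from the empty position. -/
theorem win_start (D DR : Finset E) (hA : ∀ φ, S.A φ ⊆ D) (hDRD : DR ⊆ D)
    (hT : (D.card : ℝ) * S.err ≤ 3 / 10) (hbase : S.val ∅ ∅ S.base = S.cap S.base)
    (hz : ∀ κ ∈ S.K, S.lam * S.z ∅ ∅ κ ≤ 1 / 8) :
    W D (Target S DR) D.card true ∅ ∅ := by
  have hcap := S.cap_pos S.base
  apply phase1 S D DR hA hDRD (D.card : ℝ) hT D.card ∅ ∅ ∅ ∅ 0
  · simp
  · simp
  · simp
  · simp
  · simp
  · refine ⟨by rw [hbase]; exact hcap, ?_⟩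
    unfold Sys.J
    rw [hbase, div_self hcap.ne']
    have hP : S.Psi ∅ ∅ ≤ 6 / 5 := by
      unfold Sys.Psi
      rw [div_le_iff₀ S.K_card_pos]
      have h1 : ∀ κ ∈ S.K, Real.exp (S.lam * S.z ∅ ∅ κ) ≤ 6 / 5 := by
        intro κ hκ
        have h2 : Real.exp (S.lam * S.z ∅ ∅ κ) ≤ Real.exp (1 / 8) :=
          Real.exp_le_exp.mpr (hz κ hκ)
        have h3 : Real.exp (1 / 8 : ℝ) ≤ 6 / 5 := by
          have h := Real.abs_exp_sub_one_sub_id_le (x := (1 / 8 : ℝ)) (by norm_num [abs_le])
          rw [abs_le] at h
          have := h.2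
          linarith
        linarith
      calc ∑ κ ∈ S.K, Real.exp (S.lam * S.z ∅ ∅ κ) ≤ ∑ κ ∈ S.K, (6 / 5 : ℝ) :=
            Finset.sum_le_sum h1
        _ = 6 / 5 * (S.K.card : ℝ) := by rw [sum_const, nsmul_eq_mul]; ring
    linarith
  · simp

end Pool.Agent.Helper340.TwoPlay
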