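import Mathlib
import Pool.Agent.Helper340.TwoCol.Play

set_option autoImplicit false
set_option linter.unusedVariables false
set_option linter.unusedSectionVars false
set_option linter.unusedSimpArgs false

namespace Pool.Agent.Helper340.TwoStrat

open Finset Pool.Agent.Helper340.TwoPlay

/-- the unordered edge of an ordered pair -/
def mk2 {N : ℕ} (p : Fin N × Fin N) : Sym2 (Fin N) := s(p.1, p.2)

lemma mk2_eq_iff {N : ℕ} {p p' : Fin N × Fin N} : mk2 p = mk2 p' ↔ p = p' ∨ p = p'.swap := by
  obtain ⟨a, b⟩ := p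
  obtain ⟨c, d⟩ := p'
  unfold mk2
  simp [Sym2.eq_iff, Prod.ext_iff]

/-- all edges of the complete graph -/
def Bd (N : ℕ) : Finset (Sym2 (Fin N)) := univ.filter (fun e => ¬ e.IsDiag)

lemma card_Bd (N : ℕ) : (Bd N).card = N.choose 2 := by
  unfold Bd
  have h := Sym2.card_subtype_not_diag (α := Fin N)
  rw [Fintype.card_subtype, Fintype.card_fin] at h
  exact h

lemma mem_Bd {N : ℕ} (p : Fin N × Fin N) : mk2 p ∈ Bd N ↔ p.1 ≠ p.2 := by
  unfold Bd mk2
  obtain ⟨a, b⟩ := p
  simp

/-- edges taken by Red (even times) before time `k` -/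
def Rs {N : ℕ} (m : ℕ → Fin N × Fin N) (k : ℕ) : Finset (Sym2 (Fin N)) :=
  ((range k).filter (fun i => Even i)).image (fun i => mk2 (m i))

def Bs {N : ℕ} (m : ℕ → Fin N × Fin N) (k : ℕ) : Finset (Sym2 (Fin N)) :=
  ((range k).filter (fun i => ¬ Even i)).image (fun i => mk2 (m i))

lemma Rs_succ_even {N : ℕ} (m : ℕ → Fin N × Fin N) (k : ℕ) (hk : Even k) :
    Rs m (k + 1) = insert (mk2 (m k)) (Rs m k) := by
  unfold Rs
  rw [range_add_one, filter_insert, if_pos hk, image_insert]

lemma Rs_succ_odd {N : ℕ} (m : ℕ → Fin N × Fin N) (k : ℕ) (hk : ¬ Even k) :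
    Rs m (k + 1) = Rs m k := by
  unfold Rs
  rw [range_add_one, filter_insert, if_neg hk]

lemma Bs_succ_even {N : ℕ} (m : ℕ → Fin N × Fin N) (k : ℕ) (hk : Even k) :
    Bs m (k + 1) = Bs m k := by
  unfold Bs
  rw [range_add_one, filter_insert, if_neg (not_not.mpr hk)]

lemma Bs_succ_odd {N : ℕ} (m : ℕ → Fin N × Fin N) (k : ℕ) (hk : ¬ Even k) :
    Bs m (k + 1) = insert (mk2 (m k)) (Bs m k) := by
  unfold Bs
  rw [range_add_one, filter_insert, if_pos hk, image_insert]

lemma Rs_congr {N : ℕ} (m m' : ℕ → Fin N × Fin N) (k : ℕ) (h : ∀ i < k, m i = m' i) :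
    Rs m k = Rs m' k := by
  unfold Rs
  apply image_congr
  intro i hi
  simp only [coe_filter, mem_range, Set.mem_ofPred_eq] at hi
  simp only [h i hi.1]

lemma Bs_congr {N : ℕ} (m m' : ℕ → Fin N × Fin N) (k : ℕ) (h : ∀ i < k, m i = m' i) :
    Bs m k = Bs m' k := by
  unfold Bs
  apply image_congr
  intro i hi
  simp only [coe_filter, mem_range, Set.mem_ofPred_eq] at hi
  simp only [h i hi.1]

lemma not_mem_union {N : ℕ} (m : ℕ → Fin N × Fin N) (k : ℕ) (p : Fin N × Fin N) :
    mk2 p ∉ Rs m k ∪ Bs m k ↔ ∀ j < k, m j ≠ p ∧ m j ≠ p.swap := by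
  unfold Rs Bs
  rw [← image_union, filter_union_filter_not_eq]
  simp only [mem_image, mem_range, not_exists, not_and]
  constructor
  · intro h j hj
    have := h j hj
    rw [mk2_eq_iff, not_or] at this
    exact this
  · intro h j hj
    rw [mk2_eq_iff, not_or]
    exact h j hj

open Classical in
/-- the strategy extracted from a forced win -/
noncomputable def strat {N : ℕ} (d : Fin N × Fin N)
    (goal : Finset (Sym2 (Fin N)) → Finset (Sym2 (Fin N)) → Prop)
    (h : List (Fin N × Fin N)) : Fin N × Fin N :=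
  if hx : ∃ p : Fin N × Fin N,
      mk2 p ∈ Bd N \ (Rs (fun i => h.getD i d) h.length ∪ Bs (fun i => h.getD i d) h.length) ∧
      W (Bd N) goal (N.choose 2 - h.length - 1) false
        (insert (mk2 p) (Rs (fun i => h.getD i d) h.length))
        (Bs (fun i => h.getD i d) h.length)
  then hx.choose else d

theorem strat_spec {N : ℕ} (d : Fin N × Fin N)
    (goal : Finset (Sym2 (Fin N)) → Finset (Sym2 (Fin N)) → Prop)
    (hW : W (Bd N) goal (N.choose 2) true ∅ ∅)
    (m : ℕ → Fin N × Fin N)
    (hm : ∀ k < N.choose 2, (Even k → m k = strat d goal ((List.range k).map m)) ∧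
              (¬ Even k → (m k).1 ≠ (m k).2 ∧
                ∀ j < k, m j ≠ m k ∧ m j ≠ (m k).swap)) :
    (∀ k < N.choose 2, (m k).1 ≠ (m k).2 ∧ ∀ j < k, m j ≠ m k ∧ m j ≠ (m k).swap) ∧
    goal (Rs m (N.choose 2)) (Bs m (N.choose 2)) := by
  have key : ∀ k ≤ N.choose 2,
      (∀ i < k, (m i).1 ≠ (m i).2 ∧ ∀ j < i, m j ≠ m i ∧ m j ≠ (m i).swap) ∧
      W (Bd N) goal (N.choose 2 - k) (decide (Even k)) (Rs m k) (Bs m k) := by
    intro k
    induction k with
    | zero =>
      intro _
      refine ⟨fun i hi => absurd hi (Nat.not_lt_zero i), ?_⟩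
      have h1 : Rs m 0 = ∅ := by unfold Rs; simp
      have h2 : Bs m 0 = ∅ := by unfold Bs; simp
      rw [h1, h2]
      simpa using hW
    | succ k ih =>
      intro hk
      obtain ⟨hleg, hWk⟩ := ih (by omega)
      have hkm := hm k (by omega)
      obtain ⟨j, hj⟩ : ∃ j, N.choose 2 - k = j + 1 := ⟨N.choose 2 - k - 1, by omega⟩
      have hj' : N.choose 2 - (k + 1) = j := by omega
      rw [hj] at hWk
      rw [hj']
      by_cases hev : Even k
      · rw [decide_eq_true hev] at hWk
        have hod : ¬ Even (k + 1) := by rw [Nat.even_add_one]; exact not_not.mpr hev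
        rw [decide_eq_false hod, Rs_succ_even m k hev, Bs_succ_even m k hev]
        obtain ⟨e, he, hWe⟩ := hWk
        obtain ⟨p, rfl⟩ : ∃ p, mk2 p = e := by
          clear he hWe
          induction e using Sym2.ind with
          | _ a b => exact ⟨(a, b), rfl⟩
        -- identify the strategy's choice
        set h := (List.range k).map m with hh
        have hlen : h.length = k := by simp [hh]
        have hget : ∀ i < k, (fun i => h.getD i d) i = m i := by
          intro i hi
          simp only [hh, List.getD_eq_getElem?_getD]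
          simp [hi]
        have hR : Rs (fun i => h.getD i d) h.length = Rs m k := by
          rw [hlen]; exact Rs_congr _ _ k hget
        have hB : Bs (fun i => h.getD i d) h.length = Bs m k := by
          rw [hlen]; exact Bs_congr _ _ k hget
        have hx : ∃ p : Fin N × Fin N,
            mk2 p ∈ Bd N \ (Rs (fun i => h.getD i d) h.length
              ∪ Bs (fun i => h.getD i d) h.length) ∧
            W (Bd N) goal (N.choose 2 - h.length - 1) false
              (insert (mk2 p) (Rs (fun i => h.getD i d) h.length))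
              (Bs (fun i => h.getD i d) h.length) := by
          refine ⟨p, ?_, ?_⟩
          · rw [hR, hB]; exact he
          · rw [hR, hB, hlen, hj]
            exact hWe
        have hmk : m k = hx.choose := by
          rw [hkm.1 hev]
          unfold strat
          rw [dif_pos hx]
        have hsp := hx.choose_spec
        rw [← hmk, hR, hB, hlen, hj] at hsp
        obtain ⟨hs1, hs2⟩ := hsp
        rw [mem_sdiff, mem_Bd, not_mem_union] at hs1
        refine ⟨?_, hs2⟩
        intro i hi
        rcases Nat.lt_succ_iff_lt_or_eq.mp hi with h1 | h1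
        · exact hleg i h1
        · rw [h1]; exact hs1
      · rw [decide_eq_false hev] at hWk
        have hod : Even (k + 1) := by rw [Nat.even_add_one]; exact hev
        rw [decide_eq_true hod, Rs_succ_odd m k hev, Bs_succ_odd m k hev]
        have hl := hkm.2 hev
        have hfree : mk2 (m k) ∈ Bd N \ (Rs m k ∪ Bs m k) := by
          rw [mem_sdiff, mem_Bd, not_mem_union]; exact hl
        refine ⟨?_, hWk _ hfree⟩
        intro i hi
        rcases Nat.lt_succ_iff_lt_or_eq.mp hi with h1 | h1
        · exact hleg i h1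
        · rw [h1]; exact hl
  obtain ⟨h1, h2⟩ := key (N.choose 2) (le_refl _)
  refine ⟨h1, ?_⟩
  rw [Nat.sub_self] at h2
  exact h2

end Pool.Agent.Helper340.TwoStrat
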