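import Mathlib
import Pool.Agent.Helper340.TwoCol.Crit
import Pool.Agent.Helper340.TwoCol.Play
import Pool.Agent.Helper340.TwoCol.Strat
import Pool.Agent.Helper340.TwoCol.Edges

set_option autoImplicit false
set_option linter.unusedVariables false
set_option linter.unusedSectionVars false
set_option linter.unusedSimpArgs false

namespace Pool.Agent.Helper340.TwoConcl

open Finset Pool.Agent.Helper340.Crit11 Pool.Agent.Helper340.TwoPlay
  Pool.Agent.Helper340.TwoStrat Pool.Agent.Helper340.TwoEdges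

/-- the conclusion for one value of the parameters -/
def Concl (N q : ℕ) (G : SimpleGraph (Fin q)) : Prop :=
  ∃ σ : List (Fin N × Fin N) → Fin N × Fin N,
        ∀ m : ℕ → Fin N × Fin N,
          (∀ k < N.choose 2, (Even k → m k = σ ((List.range k).map m)) ∧
              (¬ Even k → (m k).1 ≠ (m k).2 ∧
                ∀ j < k, m j ≠ m k ∧ m j ≠ (m k).swap)) →
          (∀ k < N.choose 2, (m k).1 ≠ (m k).2 ∧
                ∀ j < k, m j ≠ m k ∧ m j ≠ (m k).swap) ∧
          ∃ f : Fin q ↪ Fin N, ∀ i j : Fin q, i ≠ j →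
            (G.Adj i j ↔ ∃ k < N.choose 2, Even k ∧
              (m k = (f i, f j) ∨ m k = (f j, f i)))

lemma mem_Rs {N : ℕ} {m : ℕ → Fin N × Fin N} {k : ℕ} {u : Sym2 (Fin N)} :
    u ∈ Rs m k ↔ ∃ i < k, Even i ∧ mk2 (m i) = u := by
  unfold Rs
  simp only [mem_image, mem_filter, mem_range]
  constructor
  · rintro ⟨i, ⟨h1, h2⟩, h3⟩; exact ⟨i, h1, h2, h3⟩
  · rintro ⟨i, h1, h2, h3⟩; exact ⟨i, ⟨h1, h2⟩, h3⟩

lemma mem_Bs {N : ℕ} {m : ℕ → Fin N × Fin N} {k : ℕ} {u : Sym2 (Fin N)} :
    u ∈ Bs m k ↔ ∃ i < k, ¬ Even i ∧ mk2 (m i) = u := by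
  unfold Bs
  simp only [mem_image, mem_filter, mem_range]
  constructor
  · rintro ⟨i, ⟨h1, h2⟩, h3⟩; exact ⟨i, h1, h2, h3⟩
  · rintro ⟨i, h1, h2, h3⟩; exact ⟨i, ⟨h1, h2⟩, h3⟩

open Classical in
theorem two_colour {q n m Kp N : ℕ} {lam : ℝ} (P : Par q n m Kp lam) (hqn : q * n ≤ N)
    (hN : (N.choose 2 : ℝ) * (5 / (m : ℝ) ^ (2 * Kp + 1)) ≤ 3 / 10) (G : SimpleGraph (Fin q)) :
    Concl N q G := by
  have hcard : Fintype.card (Fin q × Fin n) ≤ Fintype.card (Fin N) := by
    simpa using hqn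
  obtain ⟨e'⟩ := Function.Embedding.nonempty_of_card_le hcard
  obtain ⟨e, he⟩ : ∃ e : Fin q × Fin n → Fin N, Function.Injective e := ⟨e', e'.injective⟩
  set S := theSys P e he with hS
  set DR : Finset (Sym2 (Fin N)) := (Bd N).filter (fun u => ∃ (i j : Fin q) (a b : Fin n),
    G.Adj i j ∧ u = s(e (i, a), e (j, b))) with hDR
  have hne : ∀ (φ : Fin q → Fin n) (i j : Fin q), i ≠ j → e (i, φ i) ≠ e (j, φ j) := by
    intro φ i j hij h
    have := he h
    rw [Prod.mk.injEq] at this
    exact hij this.1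
  have hBd : ∀ (a b : Fin N), a ≠ b → s(a, b) ∈ Bd N := by
    intro a b hab
    have := (mem_Bd (a, b)).mpr hab
    exact this
  have hA : ∀ φ, S.A φ ⊆ Bd N := by
    intro φ u hu
    have hu' : u ∈ eset e φ := hu
    unfold eset prs at hu'
    rw [mem_image] at hu'
    obtain ⟨p, hp, rfl⟩ := hu'
    rw [mem_filter] at hp
    exact hBd _ _ (hne φ _ _ hp.2.ne)
  have hwin := win_start S (Bd N) DR hA (filter_subset _ _) (by
      rw [card_Bd]
      have h1 := err_le P e he
      have h2 : (0 : ℝ) ≤ (N.choose 2 : ℝ) := Nat.cast_nonneg _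
      exact (mul_le_mul_of_nonneg_left h1 h2).trans hN)
    (base_start P e he) (z_start P e he)
  rw [card_Bd] at hwin
  have hN1 : 0 < N := by
    have := P.q3
    have := P.n1
    have : 0 < q * n := Nat.mul_pos (by omega) (by omega)
    omega
  refine ⟨strat (⟨0, hN1⟩, ⟨0, hN1⟩) (Target S DR), ?_⟩
  intro m' hm'
  obtain ⟨hleg, φ, hφ⟩ := strat_spec _ _ hwin m' hm'
  refine ⟨hleg, ⟨fun i => e (i, φ i), ?_⟩, ?_⟩
  · intro i j hij
    by_contra hne'
    exact hne φ i j hne' hij
  · intro i j hij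
    show G.Adj i j ↔ ∃ k < N.choose 2, Even k ∧
        (m' k = (e (i, φ i), e (j, φ j)) ∨ m' k = (e (j, φ j), e (i, φ i)))
    set u : Sym2 (Fin N) := s(e (i, φ i), e (j, φ j)) with hu
    have huA : u ∈ S.A φ := by
      show u ∈ eset e φ
      unfold eset prs
      rw [mem_image]
      rcases lt_or_gt_of_ne hij with h | h
      · exact ⟨(i, j), by simp [h], rfl⟩
      · refine ⟨(j, i), by simp [h], ?_⟩
        unfold ed
        rw [hu]
        exact Sym2.eq_swap
    have huDR : u ∈ DR ↔ G.Adj i j := by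
      rw [hDR, mem_filter]
      constructor
      · rintro ⟨_, i', j', a, b, hadj, heq⟩
        rw [hu, Sym2.eq_iff] at heq
        rcases heq with ⟨h1, h2⟩ | ⟨h1, h2⟩
        · have h3 := he h1
          have h4 := he h2
          rw [Prod.mk.injEq] at h3 h4
          rw [h3.1, h4.1]; exact hadj
        · have h3 := he h1
          have h4 := he h2
          rw [Prod.mk.injEq] at h3 h4
          rw [h3.1, h4.1]; exact hadj.symm
      · intro hadj
        exact ⟨hBd _ _ (hne φ _ _ hij), i, j, φ i, φ j, hadj, rfl⟩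
    have hmk : ∀ k, mk2 (m' k) = u ↔
        (m' k = (e (i, φ i), e (j, φ j)) ∨ m' k = (e (j, φ j), e (i, φ i))) := by
      intro k
      have h1 : u = mk2 (e (i, φ i), e (j, φ j)) := rfl
      rw [h1, mk2_eq_iff, Prod.swap_prod_mk]
    constructor
    · intro hadj
      have h1 := (hφ u huA).1 (huDR.mpr hadj)
      rw [mem_Rs] at h1
      obtain ⟨k, hk, hev, hku⟩ := h1
      exact ⟨k, hk, hev, (hmk k).mp hku⟩
    · rintro ⟨k, hk, hev, hku⟩
      by_contra hadj
      have h1 := (hφ u huA).2 (fun h => hadj (huDR.mp h))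
      rw [mem_Bs] at h1
      obtain ⟨k', hk', hod, hku'⟩ := h1
      have hku2 := (hmk k).mpr hku
      have heq : mk2 (m' k) = mk2 (m' k') := hku2.trans hku'.symm
      rcases lt_trichotomy k k' with h | h | h
      · have := (hleg k' hk').2 k h
        rw [mk2_eq_iff] at heq
        rcases heq with h5 | h5
        · exact this.1 h5
        · exact this.2 h5
      · rw [h] at hev; exact hod hev
      · have := (hleg k hk).2 k' h
        have heq' := heq.symm
        rw [mk2_eq_iff] at heq'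
        rcases heq' with h5 | h5
        · exact this.1 h5
        · exact this.2 h5

/-- a pattern extends to larger patterns -/
theorem Concl.mono {N q q' : ℕ} (h : q ≤ q') (G : SimpleGraph (Fin q))
    (hc : Concl N q' (G.map (Fin.castLEEmb h))) : Concl N q G := by
  obtain ⟨σ, hσ⟩ := hc
  refine ⟨σ, fun m hm => ?_⟩
  obtain ⟨h1, f, hf⟩ := hσ m hm
  refine ⟨h1, (Fin.castLEEmb h).trans f, ?_⟩
  intro i j hij
  have h2 := hf (Fin.castLEEmb h i) (Fin.castLEEmb h j) (fun h3 => hij ((Fin.castLEEmb h).injective h3))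
  rw [SimpleGraph.map_adj_apply] at h2
  exact h2

end Pool.Agent.Helper340.TwoConcl
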