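import Mathlib
import Pool.Agent.Helper340.TwoCol.Edges
import Pool.Agent.Helper340.TwoCol.Concl

set_option autoImplicit false
set_option linter.unusedVariables false
set_option linter.unusedSectionVars false
set_option linter.unusedSimpArgs false

namespace Pool.Agent.Helper340.TwoNumer

open Finset Pool.Agent.Helper340.TwoEdges Pool.Agent.Helper340.TwoConcl

lemma two_pow_le_exp (k : ℕ) : (2 : ℝ) ^ k ≤ Real.exp k := by
  have h : (2 : ℝ) ≤ Real.exp 1 := by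
    have := Real.add_one_le_exp (1 : ℝ)
    linarith
  calc (2 : ℝ) ^ k ≤ (Real.exp 1) ^ k := pow_le_pow_left₀ (by norm_num) h k
    _ = Real.exp k := by rw [← Real.exp_nat_mul]; simp

/-- the exponent inequality -/
lemma expo {q t Kp : ℕ} (hK : 6 ≤ Kp) (ht : 2 * Kp ^ 2 ≤ t) (hq : q ≤ 2 * (t + 1) * (Kp - 4))
    (i : ℕ) (hi : 2 ≤ i) (hiq : i ≤ q) :
    t + i.choose 2 + t * dd Kp i ≤ t * (Kp - 1) * i := by
  obtain ⟨c, rfl⟩ : ∃ c, Kp = c + 4 := ⟨Kp - 4, by omega⟩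
  have e1 : c + 4 - 1 = c + 3 := by omega
  have e2 : c + 4 - 4 = c := by omega
  rw [e1]
  rw [e2] at hq
  have ht0 : 0 < t := by nlinarith
  rcases Nat.lt_or_ge 2 i with h | h
  · -- i ≥ 3
    have hdd : dd (c + 4) i + 2 = 2 * (c + 4) + i := by
      unfold dd
      rw [if_neg (by omega), if_neg (by omega)]
      omega
    have hch : 2 * i.choose 2 = i * (i - 1) := by
      rw [Nat.choose_two_right]
      exact Nat.mul_div_cancel' (Nat.even_mul_pred_self i).two_dvd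
    obtain ⟨i', rfl⟩ : ∃ i', i = i' + 1 := ⟨i - 1, by omega⟩
    have hch' : 2 * (i' + 1).choose 2 = (i' + 1) * i' := by
      rw [hch]; rfl
    obtain ⟨D, hD⟩ : ∃ D, dd (c + 4) (i' + 1) = D := ⟨_, rfl⟩
    obtain ⟨C, hC⟩ : ∃ C, (i' + 1).choose 2 = C := ⟨_, rfl⟩
    rw [hD] at hdd ⊢
    rw [hC] at hch' ⊢
    have hDe : D = 2 * c + 7 + i' := by omega
    subst hDe
    rcases Nat.lt_or_ge (i' + 1) (2 * (c + 4) + 1) with h5 | h5
    · -- small i
      have h6 : C ≤ t := by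
        have : (i' + 1) * i' ≤ (2 * (c + 4)) * (2 * (c + 4)) :=
          Nat.mul_le_mul (by omega) (by omega)
        nlinarith
      have h7 : t + C + t * (2 * c + 7 + i') ≤ t * (2 * c + 9 + i') := by nlinarith
      refine h7.trans ?_
      rw [Nat.mul_assoc]
      apply Nat.mul_le_mul_left
      nlinarith
    · -- large i
      have h6 : C ≤ (i' + 1) * ((t + 1) * c) := by
        have : i' ≤ 2 * ((t + 1) * c) := by
          have : i' + 1 ≤ 2 * (t + 1) * c := hiq.trans hq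
          nlinarith
        have h7 : (i' + 1) * i' ≤ (i' + 1) * (2 * ((t + 1) * c)) := Nat.mul_le_mul_left _ this
        nlinarith
      have h8 : c ≤ t := by nlinarith
      -- t(2c+8+i') + (i'+1)(t+1)c ≤ t (c+3)(i'+1)
      have h9 : t + C + t * (2 * c + 7 + i') ≤ t * (2 * c + 8 + i') + (i' + 1) * ((t + 1) * c) := by
        nlinarith
      refine h9.trans ?_
      have h10 : (i' + 1) * ((t + 1) * c) ≤ (i' + 1) * (t * c + t) := by
        apply Nat.mul_le_mul_left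
        nlinarith
      have h11 : t * (2 * c + 8 + i') ≤ t * (2 * (i' + 1)) := by
        apply Nat.mul_le_mul_left
        omega
      nlinarith
  · have : i = 2 := by omega
    subst this
    have hdd : dd (c + 4) 2 = c + 5 := by
      unfold dd; simp
    rw [hdd]
    have h2 : (2 : ℕ).choose 2 = 1 := rfl
    rw [h2]
    nlinarith

theorem par_ok {q t Kp N : ℕ} (hK : 6 ≤ Kp) (ht : 2 * Kp ^ 2 ≤ t)
    (hbig : 500 * ((t + 1) * Kp) ^ 6 ≤ 2 ^ t)
    (hq3 : 3 ≤ q) (hq : q ≤ 2 * (t + 1) * (Kp - 4))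
    (hN1 : 2 ^ (t * Kp) ≤ N) (hN2 : N ≤ 2 ^ ((t + 1) * Kp)) :
    Par q (N / q) (2 ^ t) Kp ((2 + q * (1 + (t + 1) * Kp) : ℕ) : ℝ) ∧ q * (N / q) ≤ N ∧
      (N.choose 2 : ℝ) * (5 / ((2 ^ t : ℕ) : ℝ) ^ (2 * Kp + 1)) ≤ 3 / 10 := by
  set M : ℕ := (t + 1) * Kp with hM
  have hM6 : 6 ≤ M := by nlinarith
  have hqM : q ≤ 2 * M := by
    have : 2 * (t + 1) * (Kp - 4) ≤ 2 * (t + 1) * Kp := Nat.mul_le_mul_left _ (by omega)
    have h2 : 2 * (t + 1) * Kp = 2 * M := by rw [hM]; ring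
    omega
  have hMpow : M ≤ M ^ 6 := Nat.le_self_pow (by norm_num) M
  have hqt : q ≤ 2 ^ t := by omega
  have ht72 : 72 ≤ t := by nlinarith
  -- n
  have hn : 2 ^ (t * (Kp - 1)) ≤ N / q := by
    rw [Nat.le_div_iff_mul_le (by omega)]
    calc 2 ^ (t * (Kp - 1)) * q ≤ 2 ^ (t * (Kp - 1)) * 2 ^ t := Nat.mul_le_mul_left _ hqt
      _ = 2 ^ (t * Kp) := by
          rw [← pow_add]
          congr 1
          obtain ⟨c, rfl⟩ : ∃ c, Kp = c + 1 := ⟨Kp - 1, by omega⟩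
          simp only [Nat.add_sub_cancel]
          ring
      _ ≤ N := hN1
  have hlamN : 2 + q * (1 + M) ≤ 5 * M ^ 2 := by nlinarith
  have hq2 : q ^ 2 + 1 ≤ 5 * M ^ 2 := by nlinarith
  refine ⟨⟨hq3, ?_, ?_, by omega, ?_, ?_, ?_, ?_⟩, Nat.mul_div_le N q, ?_⟩
  · exact (Nat.one_le_two_pow).trans hn
  · calc 16 = 2 ^ 4 := by norm_num
      _ ≤ 2 ^ t := Nat.pow_le_pow_right (by norm_num) (by omega)
  · have : 1 ≤ 2 + q * (1 + M) := by omega
    exact_mod_cast this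
  · -- lamexp
    have h1 : 3 * (2 ^ q * (N / q) ^ q) ≤ 2 ^ (2 + q * (1 + M)) := by
      have h2 : (N / q) ^ q ≤ (2 ^ M) ^ q :=
        Nat.pow_le_pow_left ((Nat.div_le_self N q).trans hN2) q
      calc 3 * (2 ^ q * (N / q) ^ q) ≤ 2 ^ 2 * (2 ^ q * (2 ^ M) ^ q) := by
            apply Nat.mul_le_mul (by norm_num)
            exact Nat.mul_le_mul_left _ h2
        _ = 2 ^ (2 + q * (1 + M)) := by
            rw [← pow_mul, ← pow_add, ← pow_add]
            congr 1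
            ring
    have h3 : 3 * ((2 : ℝ) ^ q * ((N / q : ℕ) : ℝ) ^ q) ≤ (2 : ℝ) ^ (2 + q * (1 + M)) := by
      exact_mod_cast h1
    exact h3.trans (two_pow_le_exp _)
  · -- lamm
    have h1 : 4 * (2 + q * (1 + M)) * (q ^ 2 + 1) ^ 2 ≤ 2 ^ t := by
      calc 4 * (2 + q * (1 + M)) * (q ^ 2 + 1) ^ 2 ≤ 4 * (5 * M ^ 2) * (5 * M ^ 2) ^ 2 := by
            apply Nat.mul_le_mul
            · exact Nat.mul_le_mul_left _ hlamN
            · exact Nat.pow_le_pow_left hq2 2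
        _ = 500 * M ^ 6 := by ring
        _ ≤ 2 ^ t := hbig
    exact_mod_cast h1
  · -- start
    intro i hi hiq
    have h1 : 8 * (2 + q * (1 + M)) * (1 + q ^ 2) ≤ 2 ^ t := by
      calc 8 * (2 + q * (1 + M)) * (1 + q ^ 2) ≤ 8 * (5 * M ^ 2) * (5 * M ^ 2) := by
            apply Nat.mul_le_mul
            · exact Nat.mul_le_mul_left _ hlamN
            · rw [add_comm]; exact hq2
        _ = 200 * M ^ 4 := by ring
        _ ≤ 500 * M ^ 6 := by
            apply Nat.mul_le_mul (by norm_num)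
            exact Nat.pow_le_pow_right (by omega) (by norm_num)
        _ ≤ 2 ^ t := hbig
    have h2 := expo hK ht hq i hi hiq
    have h3 : 8 * (2 + q * (1 + M)) * (1 + q ^ 2) * 2 ^ (i.choose 2) * (2 ^ t) ^ (dd Kp i)
        ≤ (N / q) ^ i := by
      calc 8 * (2 + q * (1 + M)) * (1 + q ^ 2) * 2 ^ (i.choose 2) * (2 ^ t) ^ (dd Kp i)
          ≤ 2 ^ t * 2 ^ (i.choose 2) * (2 ^ t) ^ (dd Kp i) := by
            apply Nat.mul_le_mul_right
            exact Nat.mul_le_mul_right _ h1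
        _ = 2 ^ (t + i.choose 2 + t * dd Kp i) := by
            rw [← pow_mul, ← pow_add, ← pow_add]
        _ ≤ 2 ^ (t * (Kp - 1) * i) := Nat.pow_le_pow_right (by norm_num) h2
        _ = (2 ^ (t * (Kp - 1))) ^ i := by rw [← pow_mul]
        _ ≤ (N / q) ^ i := Nat.pow_le_pow_left hn i
    exact_mod_cast h3
  · -- error
    have h1 : N.choose 2 ≤ 2 ^ (2 * M) := by
      calc N.choose 2 ≤ N ^ 2 := Nat.choose_le_pow N 2
        _ ≤ (2 ^ M) ^ 2 := Nat.pow_le_pow_left hN2 2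
        _ = 2 ^ (2 * M) := by rw [← pow_mul]; ring_nf
    have h2 : 50 * 2 ^ (2 * M) ≤ 3 * (2 ^ t) ^ (2 * Kp + 1) := by
      have h3 : 2 * M + 5 ≤ t * (2 * Kp + 1) := by
        rw [hM]; nlinarith
      calc 50 * 2 ^ (2 * M) ≤ 3 * (2 ^ 5 * 2 ^ (2 * M)) := by
            have : 0 < 2 ^ (2 * M) := by positivity
            nlinarith
        _ = 3 * 2 ^ (2 * M + 5) := by rw [pow_add]; ring
        _ ≤ 3 * 2 ^ (t * (2 * Kp + 1)) :=
            Nat.mul_le_mul_left _ (Nat.pow_le_pow_right (by norm_num) h3)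
        _ = 3 * (2 ^ t) ^ (2 * Kp + 1) := by rw [← pow_mul]
    have h3 : 50 * (N.choose 2 : ℝ) ≤ 3 * (((2 ^ t : ℕ) : ℝ)) ^ (2 * Kp + 1) := by
      have : 50 * N.choose 2 ≤ 3 * (2 ^ t) ^ (2 * Kp + 1) := (Nat.mul_le_mul_left 50 h1).trans h2
      exact_mod_cast this
    have hp : (0 : ℝ) < (((2 ^ t : ℕ) : ℝ)) ^ (2 * Kp + 1) := by positivity
    rw [← mul_div_assoc, div_le_iff₀ hp]
    linarith

theorem eventually_ok (ε : ℝ) (hε : 0 < ε) : ∃ N₀ : ℕ, ∀ N : ℕ, N₀ ≤ N → ∀ q : ℕ,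
    (q : ℝ) ≤ (2 - ε) * Real.logb 2 (N : ℝ) → ∀ G : SimpleGraph (Fin q), Concl N q G := by
  -- parameters
  obtain ⟨Kp, hKp⟩ : ∃ Kp : ℕ, 16 / ε + 6 ≤ Kp := exists_nat_ge _
  have hK6 : 6 ≤ Kp := by
    have : (6 : ℝ) ≤ Kp := by
      have : 0 < 16 / ε := by positivity
      linarith
    exact_mod_cast this
  have hKε : 16 ≤ ε * Kp := by
    have h1 : 16 / ε ≤ Kp := by linarith
    rw [div_le_iff₀ hε] at h1
    linarith
  have hKpos : (0 : ℝ) < Kp := by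
    have : 0 < Kp := by omega
    exact_mod_cast this
  have t1 := tendsto_pow_const_div_const_pow_of_one_lt 6 (r := (2 : ℝ)) (by norm_num)
  have c1 : (0 : ℝ) < 1 / (500 * 64 * (Kp : ℝ) ^ 6) := by positivity
  have e1 := t1.eventually (gt_mem_nhds c1)
  obtain ⟨T₀, hT₀⟩ := Filter.eventually_atTop.mp (e1.and (Filter.eventually_ge_atTop (2 * Kp ^ 2 + 1)))
  refine ⟨2 ^ (T₀ * Kp), fun N hN q hq G => ?_⟩
  set ℓ := Nat.log 2 N with hℓ
  set t := ℓ / Kp with ht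
  have hNpos : N ≠ 0 := by
    have : 0 < 2 ^ (T₀ * Kp) := by positivity
    omega
  have hℓT : T₀ * Kp ≤ ℓ := Nat.le_log_of_pow_le (by norm_num) hN
  have htT : T₀ ≤ t := by
    rw [ht, Nat.le_div_iff_mul_le (by omega)]
    exact hℓT
  obtain ⟨htb, ht2⟩ := hT₀ t htT
  have ht2' : 2 * Kp ^ 2 ≤ t := by omega
  have htK : t * Kp ≤ ℓ := Nat.div_mul_le_self ℓ Kp
  have hℓt : ℓ + 1 ≤ (t + 1) * Kp := by
    have := Nat.lt_div_mul_add (a := ℓ) (b := Kp) (by omega)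
    rw [← ht] at this
    nlinarith
  have hN1 : 2 ^ (t * Kp) ≤ N :=
    (Nat.pow_le_pow_right (by norm_num) htK).trans (Nat.pow_log_le_self 2 hNpos)
  have hN2 : N ≤ 2 ^ ((t + 1) * Kp) := by
    have h1 : N < 2 ^ (ℓ + 1) := Nat.lt_pow_succ_log_self (by norm_num) N
    exact h1.le.trans (Nat.pow_le_pow_right (by norm_num) hℓt)
  have hbig : 500 * ((t + 1) * Kp) ^ 6 ≤ 2 ^ t := by
    have h2 : (0 : ℝ) < 2 ^ t := by positivity
    rw [div_lt_iff₀ h2] at htb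
    have h3 : (500 * 64 * (Kp : ℝ) ^ 6) * (t : ℝ) ^ 6 < 2 ^ t := by
      have h5 := mul_lt_mul_of_pos_left htb (show (0 : ℝ) < 500 * 64 * (Kp : ℝ) ^ 6 by positivity)
      have h6 : (500 * 64 * (Kp : ℝ) ^ 6) * (1 / (500 * 64 * (Kp : ℝ) ^ 6) * 2 ^ t) = 2 ^ t := by
        field_simp
      rw [h6] at h5
      exact h5
    have h4 : 500 * ((t + 1) * Kp) ^ 6 ≤ 500 * 64 * Kp ^ 6 * t ^ 6 := by
      have h5 : ((t + 1) * Kp) ^ 6 ≤ ((2 * t) * Kp) ^ 6 := by
        apply Nat.pow_le_pow_left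
        apply Nat.mul_le_mul_right
        have : 1 ≤ t := by omega
        omega
      calc 500 * ((t + 1) * Kp) ^ 6 ≤ 500 * ((2 * t) * Kp) ^ 6 := Nat.mul_le_mul_left _ h5
        _ = 500 * 64 * Kp ^ 6 * t ^ 6 := by ring
    have h7 : 500 * 64 * Kp ^ 6 * t ^ 6 < 2 ^ t := by exact_mod_cast h3
    omega
  -- the logarithm
  have hL1 : Real.logb 2 (N : ℝ) ≤ ((t + 1) * Kp : ℕ) := by
    have hN0 : (0 : ℝ) < N := by exact_mod_cast Nat.pos_of_ne_zero hNpos
    rw [Real.logb_le_iff_le_rpow (by norm_num) hN0, Real.rpow_natCast]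
    exact_mod_cast hN2
  have hL0 : ((t * Kp : ℕ) : ℝ) ≤ Real.logb 2 (N : ℝ) := by
    have hN0 : (0 : ℝ) < N := by exact_mod_cast Nat.pos_of_ne_zero hNpos
    rw [Real.le_logb_iff_rpow_le (by norm_num) hN0, Real.rpow_natCast]
    exact_mod_cast hN1
  set L := Real.logb 2 (N : ℝ) with hL
  have ht1 : (1 : ℝ) ≤ t := by
    have : 1 ≤ t := by omega
    exact_mod_cast this
  -- bound on q + 3
  have hq' : q + 3 ≤ 2 * (t + 1) * (Kp - 4) := by
    obtain ⟨c, rfl⟩ : ∃ c, Kp = c + 4 := ⟨Kp - 4, by omega⟩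
    have e2 : c + 4 - 4 = c := by omega
    rw [e2]
    have hgoal : ((q + 3 : ℕ) : ℝ) ≤ ((2 * (t + 1) * c : ℕ) : ℝ) := by
      push_cast
      push_cast at hL0 hL1 hKε
      have hL0' : 0 ≤ L := le_trans (by positivity) hL0
      by_cases hε2 : ε ≤ 2
      · have h1 : (2 - ε) * L ≤ (2 - ε) * (((t : ℝ) + 1) * (c + 4)) :=
          mul_le_mul_of_nonneg_left hL1 (by linarith)
        have h2 : (q : ℝ) + 3 ≤ (2 - ε) * (((t : ℝ) + 1) * (c + 4)) + 3 := by linarith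
        have h3 : 16 * ((t : ℝ) + 1) ≤ ε * (c + 4) * ((t : ℝ) + 1) :=
          mul_le_mul_of_nonneg_right hKε (by linarith)
        nlinarith
      · have h1 : (2 - ε) * L ≤ 0 := mul_nonpos_of_nonpos_of_nonneg (by linarith) hL0'
        have h2 : (q : ℝ) ≤ 0 := by linarith
        have h4 : (2 : ℝ) ≤ c := by
          have : 2 ≤ c := by omega
          exact_mod_cast this
        nlinarith
    exact_mod_cast hgoal
  obtain ⟨P, h1, h2⟩ := par_ok hK6 ht2' hbig (show 3 ≤ q + 3 by omega) hq' hN1 hN2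
  exact Concl.mono (show q ≤ q + 3 by omega) G (two_colour P h1 h2 _)

end Pool.Agent.Helper340.TwoNumer
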